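import Mathlib

namespace Pool.Agent.Q2.TMO

open Module

/-- Gelfand-Kazhdan trick for finite groups with a character. -/
theorem gk {G H W : Type*} [Group G] [Group H] [Finite H] (i : H →* G) (ψ : H →* ℂˣ)
    (star : G → G) (hstar : ∀ a b, star (a * b) = star b * star a)
    (starH : H ≃ H) (h1 : ∀ h, star (i h) = i (starH h)) (h2 : ∀ h, ψ (starH h) = ψ h)
    (key : ∀ g, ∃ a b : H, star g = i a * g * i b ∧ ψ a * ψ b = 1)
    [AddCommGroup W] [Module ℂ W] [Module.Finite ℂ W] (π : Representation ℂ G W)
    [hirr : Representation.IsIrreducible π]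
    (L : Submodule ℂ (Module.Dual ℂ W))
    (hL : ∀ ℓ ∈ L, ∀ h v, ℓ (π (i h) v) = (ψ h : ℂ) * ℓ v) : finrank ℂ L ≤ 1 := by
  classical
  have := Fintype.ofFinite H
  obtain ⟨e, he⟩ : ∃ e : Module.End ℂ W, e = ∑ h : H, ((ψ h)⁻¹ : ℂˣ).1 • π (i h) := ⟨_, rfl⟩
  have hc0 : (Fintype.card H : ℂ) ≠ 0 := by
    exact_mod_cast Fintype.card_ne_zero
  have e_mul : ∀ k : H, e * π (i k) = (ψ k).1 • e := by
    intro k
    simp only [he, Finset.sum_mul, Finset.smul_sum]
    rw [← Equiv.sum_comp (Equiv.mulRight k) (fun h => (ψ k).1 • ((ψ h)⁻¹ : ℂˣ).1 • π (i h))]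
    apply Finset.sum_congr rfl
    intro h _
    rw [smul_smul, smul_mul_assoc, ← map_mul, ← map_mul]
    congr 1
    simp only [Equiv.coe_mulRight, map_mul, mul_inv_rev, Units.val_mul]
    rw [← mul_assoc, ← Units.val_mul, mul_inv_cancel, Units.val_one, one_mul]
  have mul_e : ∀ k : H, π (i k) * e = (ψ k).1 • e := by
    intro k
    simp only [he, Finset.mul_sum, Finset.smul_sum]
    rw [← Equiv.sum_comp (Equiv.mulLeft k) (fun h => (ψ k).1 • ((ψ h)⁻¹ : ℂˣ).1 • π (i h))]
    apply Finset.sum_congr rfl
    intro h _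
    rw [smul_smul, mul_smul_comm, ← map_mul, ← map_mul]
    congr 1
    simp only [Equiv.coe_mulLeft, map_mul, mul_inv_rev, Units.val_mul]
    rw [mul_comm (((ψ h)⁻¹ : ℂˣ) : ℂ), ← mul_assoc, ← Units.val_mul, mul_inv_cancel,
      Units.val_one, one_mul]
  have ee : e * e = (Fintype.card H : ℂ) • e := by
    have h3 : e * e = ∑ h : H, ((ψ h)⁻¹ : ℂˣ).1 • (π (i h) * e) := by
      conv_lhs =>
        arg 1
        rw [he]
      rw [Finset.sum_mul]
      apply Finset.sum_congr rfl
      intro h _
      rw [smul_mul_assoc]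
    rw [h3]
    have h4 : ∀ h : H, ((ψ h)⁻¹ : ℂˣ).1 • (π (i h) * e) = e := by
      intro h
      rw [mul_e, smul_smul, ← Units.val_mul, inv_mul_cancel, Units.val_one, one_smul]
    simp only [h4, Finset.sum_const, Finset.card_univ]
    rw [← Nat.cast_smul_eq_nsmul ℂ]
  let T : G → Module.End ℂ W := fun g => e * π g * e
  have T1 : ∀ (a b : H) (g : G), T (i a * g * i b) = ((ψ a).1 * (ψ b).1) • T g := by
    intro a b g
    simp only [T]
    rw [map_mul, map_mul]
    calc e * (π (i a) * π g * π (i b)) * e = (e * π (i a)) * π g * (π (i b) * e) := by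
          simp only [mul_assoc]
      _ = _ := by
          rw [e_mul, mul_e, mul_smul_comm, smul_mul_assoc, smul_mul_assoc, smul_smul,
            mul_comm (ψ b).1]
  have T2 : ∀ g, T (star g) = T g := by
    intro g
    obtain ⟨a, b, hab, hab2⟩ := key g
    rw [hab, T1, ← Units.val_mul, hab2, Units.val_one, one_smul]
  have T3 : ∀ g g', T g * T g' = (Fintype.card H : ℂ) •
      ∑ h : H, ((ψ h)⁻¹ : ℂˣ).1 • T (g * i h * g') := by
    intro g g'
    simp only [T]
    calc e * π g * e * (e * π g' * e) = e * π g * (e * e) * π g' * e := by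
          simp only [mul_assoc]
      _ = (Fintype.card H : ℂ) • (e * π g * e * π g' * e) := by
          rw [ee]
          simp only [mul_smul_comm, smul_mul_assoc]
      _ = (Fintype.card H : ℂ) • ∑ h : H, ((ψ h)⁻¹ : ℂˣ).1 • (e * π (g * i h * g') * e) := by
          congr 1
          have : e * π g * e * π g' * e = e * π g * (∑ h : H, ((ψ h)⁻¹ : ℂˣ).1 • π (i h)) *
              π g' * e := by rw [← he]
          rw [this, Finset.mul_sum, Finset.sum_mul, Finset.sum_mul]
          apply Finset.sum_congr rfl
          intro h _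
          rw [map_mul, map_mul]
          simp only [mul_smul_comm, smul_mul_assoc, mul_assoc]
  have T4 : ∀ g g', T g * T g' = T g' * T g := by
    intro g g'
    rw [T3, T3]
    congr 1
    obtain ⟨a, b, hab, hab2⟩ := key g
    obtain ⟨a', b', hab', hab2'⟩ := key g'
    let φ : H ≃ H := starH.trans ((Equiv.mulLeft b').trans (Equiv.mulRight a))
    have hφ : ∀ h, φ h = b' * starH h * a := fun h => rfl
    rw [← Equiv.sum_comp φ (fun h => ((ψ h)⁻¹ : ℂˣ).1 • T (g' * i h * g))]
    apply Finset.sum_congr rfl
    intro h _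
    rw [← T2 (g * i h * g'), hstar, hstar, h1, hab, hab', hφ]
    have h5 : i a' * g' * i b' * (i (starH h) * (i a * g * i b)) =
        i a' * (g' * i (b' * starH h * a) * g) * i b := by
      simp only [map_mul, mul_assoc]
    rw [h5, T1, smul_smul]
    congr 1
    rw [map_mul, map_mul, h2]
    rw [← Units.val_mul, ← Units.val_mul]
    congr 1
    have h6 : (ψ a') = (ψ b')⁻¹ := eq_inv_of_mul_eq_one_left hab2'
    have h7 : (ψ b) = (ψ a)⁻¹ := eq_inv_of_mul_eq_one_right hab2
    rw [h6, h7]
    simp only [mul_inv_rev]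
    rw [mul_comm ((ψ b')⁻¹), mul_comm ((ψ h)⁻¹), mul_assoc, mul_comm ((ψ h)⁻¹)]
  -- transitivity
  have trans : ∀ w : W, w ≠ 0 → ∀ x : W, x ∈ Submodule.span ℂ (Set.range (fun g => π g w)) := by
    intro w hw x
    let R : Subrepresentation π :=
      { toSubmodule := Submodule.span ℂ (Set.range (fun g => π g w))
        apply_mem_toSubmodule := by
          intro g v hv
          induction hv using Submodule.span_induction with
          | mem y hy =>
            obtain ⟨g', rfl⟩ := hy
            apply Submodule.subset_span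
            refine ⟨g * g', ?_⟩
            simp
          | zero => rw [map_zero]; exact Submodule.zero_mem _
          | add y z _ _ hy hz => rw [map_add]; exact Submodule.add_mem _ hy hz
          | smul c y _ hy => rw [map_smul]; exact Submodule.smul_mem _ _ hy }
    have hR : w ∈ R.toSubmodule := by
      apply Submodule.subset_span
      exact ⟨1, by simp⟩
    rcases eq_bot_or_eq_top R with h | h
    · exfalso
      apply hw
      have : R.toSubmodule = ⊥ := by
        rw [h]
        rfl
      rw [this] at hR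
      exact hR
    · have : R.toSubmodule = ⊤ := by
        rw [h]
        rfl
      have hx : x ∈ R.toSubmodule := by
        rw [this]
        trivial
      exact hx
  have hee : ∀ x, e (e x) = (Fintype.card H : ℂ) • e x := by
    intro x
    have := congrArg (fun f : Module.End ℂ W => f x) ee
    simpa using this
  have trans2 : ∀ w ∈ LinearMap.range e, w ≠ 0 → ∀ x ∈ LinearMap.range e,
      x ∈ Submodule.span ℂ (Set.range (fun g => T g w)) := by
    rintro w ⟨w', rfl⟩ hw _ ⟨y, rfl⟩
    have h3 := trans (e w') hw y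
    have h4 : ∀ y ∈ Submodule.span ℂ (Set.range (fun g => π g (e w'))),
        e y ∈ Submodule.span ℂ (Set.range (fun g => T g (e w'))) := by
      intro y hy
      induction hy using Submodule.span_induction with
      | mem z hz =>
        obtain ⟨g, rfl⟩ := hz
        have h5 : T g (e w') = (Fintype.card H : ℂ) • e (π g (e w')) := by
          change e (π g (e (e w'))) = _
          rw [hee, map_smul, map_smul]
        have h6 : e (π g (e w')) = (Fintype.card H : ℂ)⁻¹ • T g (e w') := by
          rw [h5, smul_smul, inv_mul_cancel₀ hc0, one_smul]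
        change e (π g (e w')) ∈ _
        rw [h6]
        exact Submodule.smul_mem _ _ (Submodule.subset_span ⟨g, rfl⟩)
      | zero => rw [map_zero]; exact Submodule.zero_mem _
      | add y z _ _ hy hz => rw [map_add]; exact Submodule.add_mem _ hy hz
      | smul c y _ hy => rw [map_smul]; exact Submodule.smul_mem _ _ hy
    exact h4 y h3
  have hw : ∃ w, ∀ x, ∃ c : ℂ, e x = c • w := by
    by_cases hb : LinearMap.range e = ⊥
    · refine ⟨0, fun x => ⟨0, ?_⟩⟩
      have : e x ∈ LinearMap.range e := ⟨x, rfl⟩
      rw [hb] at this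
      rw [smul_zero]
      exact this
    · have hnt : Nontrivial (LinearMap.range e) := by
        rw [Submodule.nontrivial_iff_ne_bot]
        exact hb
      have hscal : ∀ g, ∃ c : ℂ, ∀ x ∈ LinearMap.range e, T g x = c • x := by
        intro g
        have hmap : ∀ x ∈ LinearMap.range e, T g x ∈ LinearMap.range e := by
          intro x _
          exact ⟨π g (e x), rfl⟩
        obtain ⟨c, hc⟩ := Module.End.exists_eigenvalue ((T g).restrict hmap)
        obtain ⟨v, hv⟩ := hc.exists_hasEigenvector
        have hv1 : T g v.1 = c • v.1 := congrArg Subtype.val hv.apply_eq_smul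
        have hv0 : v.1 ≠ 0 := fun h => hv.2 (Subtype.ext h)
        refine ⟨c, fun x hx => ?_⟩
        have h3 := trans2 v.1 v.2 hv0 x hx
        induction h3 using Submodule.span_induction with
        | mem z hz =>
          obtain ⟨g', rfl⟩ := hz
          have h4 := congrArg (fun f : Module.End ℂ W => f v.1) (T4 g g')
          simp only [Module.End.mul_apply] at h4
          rw [h4, hv1, map_smul]
        | zero => rw [map_zero, smul_zero]
        | add y z hy1 hz1 hy hz =>
          have hyr : y ∈ LinearMap.range e := by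
            refine Submodule.span_le.2 ?_ hy1
            rintro _ ⟨g', rfl⟩
            exact ⟨π g' (e v.1), rfl⟩
          have hzr : z ∈ LinearMap.range e := by
            refine Submodule.span_le.2 ?_ hz1
            rintro _ ⟨g', rfl⟩
            exact ⟨π g' (e v.1), rfl⟩
          rw [map_add, smul_add, hy hyr, hz hzr]
        | smul d y hy1 hy =>
          have hyr : y ∈ LinearMap.range e := by
            refine Submodule.span_le.2 ?_ hy1
            rintro _ ⟨g', rfl⟩
            exact ⟨π g' (e v.1), rfl⟩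
          rw [map_smul, hy hyr, smul_comm]
      obtain ⟨w, hw⟩ := exists_ne (0 : LinearMap.range e)
      refine ⟨w.1, fun x => ?_⟩
      have h3 := trans2 w.1 w.2 (fun h => hw (Subtype.ext h)) (e x) ⟨x, rfl⟩
      have h4 : Submodule.span ℂ (Set.range (fun g => T g w.1)) ≤ Submodule.span ℂ {w.1} := by
        rw [Submodule.span_le]
        rintro _ ⟨g, rfl⟩
        obtain ⟨c, hc⟩ := hscal g
        change T g w.1 ∈ _
        rw [hc w.1 w.2]
        exact Submodule.smul_mem _ _ (Submodule.mem_span_singleton_self _)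
      obtain ⟨c, hc⟩ := Submodule.mem_span_singleton.1 (h4 h3)
      exact ⟨c, hc.symm⟩
  obtain ⟨w, hw⟩ := hw
  let f : L →ₗ[ℂ] ℂ :=
    { toFun := fun ℓ => ℓ.1 w
      map_add' := fun a b => rfl
      map_smul' := fun c a => rfl }
  have hf : Function.Injective f := by
    rw [← LinearMap.ker_eq_bot, LinearMap.ker_eq_bot']
    rintro ⟨ℓ, hℓ⟩ h3
    have h3' : ℓ w = 0 := h3
    apply Subtype.ext
    change ℓ = 0
    ext v
    have h4 : ℓ (e v) = (Fintype.card H : ℂ) * ℓ v := by
      simp only [he, LinearMap.sum_apply, LinearMap.smul_apply, map_sum, map_smul]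
      have : ∀ h : H, ((ψ h)⁻¹ : ℂˣ).1 • ℓ (π (i h) v) = ℓ v := by
        intro h
        rw [hL ℓ hℓ, smul_eq_mul, ← mul_assoc, ← Units.val_mul, inv_mul_cancel, Units.val_one,
          one_mul]
      simp only [this, Finset.sum_const, Finset.card_univ, nsmul_eq_mul]
    obtain ⟨c, hc⟩ := hw v
    rw [hc, map_smul, h3', smul_zero] at h4
    rcases mul_eq_zero.1 h4.symm with h5 | h5
    · exact absurd h5 hc0
    · simpa using h5
  have h3 := LinearMap.finrank_le_finrank_of_injective hf
  rwa [Module.finrank_self] at h3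

end Pool.Agent.Q2.TMO
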