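import Mathlib

namespace Pool.Agent.Q2.TMO

open Submodule

/-- A nilpotent semilinear operator has a rational basis. -/
theorem exists_real_set {F E V : Type*} [Field F] [Field E] [Algebra F E] [AddCommGroup V]
    [Module E V] [Module F V] [IsScalarTower F E V] (σ : E →+* E) (hσ : ∀ x, σ (σ x) = x)
    (φ : V → V) (hadd : ∀ a b, φ (a + b) = φ a + φ b)
    (hsm : ∀ (e : E) v, φ (e • v) = σ e • φ v)
    (k : ℕ) (U : Submodule E V) (hU : ∀ u ∈ U, φ u ∈ U) (hk : ∀ u ∈ U, φ^[k] u = 0) :
    ∃ s : Set V, s ⊆ U ∧ LinearIndepOn E id s ∧ span E s = U ∧ ∀ x ∈ s, φ x ∈ span F s := by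
  have hzero : φ 0 = 0 := by
    have := hadd 0 0
    simpa using this
  have hneg : ∀ a, φ (-a) = - φ a := by
    intro a
    have := hadd a (-a)
    rw [add_neg_cancel, hzero] at this
    exact (neg_eq_of_add_eq_zero_right this.symm).symm
  have hsub : ∀ a b, φ (a - b) = φ a - φ b := by
    intro a b
    rw [sub_eq_add_neg, hadd, hneg, sub_eq_add_neg]
  induction k generalizing U with
  | zero =>
    refine ⟨∅, Set.empty_subset _, linearIndepOn_empty E id, ?_, ?_⟩
    · rw [span_empty]
      symm
      rw [Submodule.eq_bot_iff]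
      intro u hu
      exact hk u hu
    · intro x hx
      exact absurd hx (Set.notMem_empty x)
  | succ k ih =>
    let U' : Submodule E V :=
      { carrier := φ '' U
        add_mem' := by
          rintro _ _ ⟨a, ha, rfl⟩ ⟨b, hb, rfl⟩
          exact ⟨a + b, U.add_mem ha hb, hadd a b⟩
        zero_mem' := ⟨0, U.zero_mem, hzero⟩
        smul_mem' := by
          rintro c _ ⟨a, ha, rfl⟩
          refine ⟨σ c • a, U.smul_mem _ ha, ?_⟩
          rw [hsm, hσ] }
    have hU' : ∀ u ∈ U', φ u ∈ U' := by
      rintro _ ⟨a, ha, rfl⟩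
      exact ⟨φ a, hU a ha, rfl⟩
    have hk' : ∀ u ∈ U', φ^[k] u = 0 := by
      rintro _ ⟨a, ha, rfl⟩
      have := hk a ha
      rwa [Function.iterate_succ_apply] at this
    obtain ⟨s', hs'U, hs'li, hs'span, hs'⟩ := ih U' hU' hk'
    have hU'U : U' ≤ U := by
      rintro _ ⟨a, ha, rfl⟩
      exact hU a ha
    let T : Set V := {u | u ∈ U ∧ φ u ∈ span F s'}
    have hs'T : s' ⊆ T := fun x hx => ⟨hU'U (hs'U hx), hs' x hx⟩
    obtain ⟨s, hsT, hs's, hTs, hli⟩ := exists_linearIndepOn_id_extension hs'li hs'T
    have hspanT : span E s = U := by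
      apply le_antisymm
      · rw [span_le]
        intro x hx
        exact (hsT hx).1
      · -- every element of U' is φ of something in span s ∩ U
        have h1 : ∀ y ∈ span E s', ∃ t ∈ span E s, t ∈ U ∧ φ t = y := by
          intro y hy
          induction hy using Submodule.span_induction with
          | mem x hx =>
            obtain ⟨u, hu, rfl⟩ := hs'U hx
            exact ⟨u, hTs ⟨hu, subset_span hx⟩, hu, rfl⟩
          | zero => exact ⟨0, Submodule.zero_mem _, Submodule.zero_mem _, hzero⟩
          | add x y _ _ hx hy =>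
            obtain ⟨a, ha, ha2, rfl⟩ := hx
            obtain ⟨b, hb, hb2, rfl⟩ := hy
            exact ⟨a + b, Submodule.add_mem _ ha hb, U.add_mem ha2 hb2, hadd a b⟩
          | smul c x _ hx =>
            obtain ⟨a, ha, ha2, rfl⟩ := hx
            exact ⟨σ c • a, Submodule.smul_mem _ _ ha, U.smul_mem _ ha2, by rw [hsm, hσ]⟩
        intro u hu
        obtain ⟨t, ht, htU, ht2⟩ := h1 (φ u) (by rw [hs'span]; exact ⟨u, hu, rfl⟩)
        have h2 : u - t ∈ T := by
          refine ⟨U.sub_mem hu htU, ?_⟩
          rw [hsub, ht2, sub_self]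
          exact Submodule.zero_mem _
        have h3 : u = (u - t) + t := by abel
        rw [h3]
        exact Submodule.add_mem _ (hTs h2) ht
    refine ⟨s, ?_, hli, hspanT, ?_⟩
    · intro x hx
      exact (hsT hx).1
    · intro x hx
      exact span_mono hs's (hsT hx).2

/-- matrix form. -/
theorem exists_real {F E n : Type*} [Field F] [Field E] [Algebra F E] [Fintype n] [DecidableEq n]
    (σ : E →+* E) (hσ : ∀ x, σ (σ x) = x) (D : Matrix n n E) (k : ℕ)
    (hk : (D * D.map σ) ^ k = 0) :
    ∃ (X : Matrix n n E) (N : Matrix n n F), IsUnit X.det ∧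
      D * X.map σ = X * N.map (algebraMap F E) := by
  classical
  let φ : (n → E) → (n → E) := fun v => D.mulVec (σ ∘ v)
  have hadd : ∀ a b, φ (a + b) = φ a + φ b := by
    intro a b
    have : σ ∘ (a + b) = σ ∘ a + σ ∘ b := by
      funext i
      simp
    simp only [φ]
    rw [this, Matrix.mulVec_add]
  have hsm : ∀ (e : E) v, φ (e • v) = σ e • φ v := by
    intro e v
    have : σ ∘ (e • v) = σ e • (σ ∘ v) := by
      funext i
      simp
    simp only [φ]
    rw [this, Matrix.mulVec_smul]
  have hφ2 : ∀ v, φ (φ v) = (D * D.map σ).mulVec v := by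
    intro v
    have : σ ∘ (D.mulVec (σ ∘ v)) = (D.map σ).mulVec v := by
      funext i
      simp [Matrix.mulVec, dotProduct, map_sum, hσ]
    simp only [φ]
    rw [this, Matrix.mulVec_mulVec]
  have hit : ∀ (j : ℕ) v, φ^[2 * j] v = ((D * D.map σ) ^ j).mulVec v := by
    intro j
    induction j with
    | zero => intro v; simp
    | succ j ih =>
      intro v
      rw [show 2 * (j + 1) = 2 * j + 1 + 1 by ring, Function.iterate_succ_apply,
        Function.iterate_succ_apply, hφ2, ih, Matrix.mulVec_mulVec, pow_succ]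
  obtain ⟨s, -, hli, hspan, hs⟩ := exists_real_set (F := F) σ hσ φ hadd hsm (2 * k) ⊤
    (fun u _ => Submodule.mem_top) (fun u _ => by rw [hit, hk, Matrix.zero_mulVec])
  have hli' : LinearIndependent E ((↑) : s → (n → E)) := hli
  let b : Module.Basis s E (n → E) := Module.Basis.mk hli' (by
    rw [Subtype.range_coe, hspan])
  have hfin : Finite s := hli'.finite
  have := Fintype.ofFinite s
  have hcard : Fintype.card s = Fintype.card n := by
    rw [← Module.finrank_eq_card_basis b, Module.finrank_fintype_fun_eq_card]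
  let e : n ≃ s := (Fintype.equivOfCardEq hcard).symm
  have hbe : ∀ i, b i = (i : n → E) := by
    intro i
    simp [b]
  -- coordinates of φ (e j)
  have hco : ∀ j : n, ∃ c : n → F, φ (e j : n → E) = ∑ i, c i • (e i : n → E) := by
    intro j
    have h1 := hs (e j : n → E) (e j).2
    have h0 : s = Set.range (fun i : n => (e i : n → E)) := by
      ext x
      constructor
      · intro hx
        refine ⟨e.symm ⟨x, hx⟩, ?_⟩
        simp
      · rintro ⟨i, rfl⟩
        exact (e i).2
    have h2 : span F s = span F (Set.range (fun i : n => (e i : n → E))) := congrArg (span F) h0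
    rw [h2, Submodule.mem_span_range_iff_exists_fun] at h1
    obtain ⟨c, hc⟩ := h1
    exact ⟨c, hc.symm⟩
  choose c hc using hco
  let X : Matrix n n E := fun x i => (e i : n → E) x
  refine ⟨X, fun i j => c j i, ?_, ?_⟩
  · rw [isUnit_iff_ne_zero]
    intro hdet
    obtain ⟨v, hv0, hv⟩ := Matrix.exists_mulVec_eq_zero_iff.2 hdet
    apply hv0
    have h1 : ∑ i, v i • (e i : n → E) = 0 := by
      funext x
      have := congrFun hv x
      simp only [Matrix.mulVec, dotProduct, X] at this
      simp only [Finset.sum_apply, Pi.smul_apply, smul_eq_mul]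
      rw [← this]
      apply Finset.sum_congr rfl
      intro i _
      rw [mul_comm]
    have h2 : LinearIndependent E (fun i : n => (e i : n → E)) := hli'.comp e e.injective
    funext i
    exact Fintype.linearIndependent_iff.1 h2 v h1 i
  · ext x j
    have h1 := congrFun (hc j) x
    rw [Matrix.mul_apply, Matrix.mul_apply]
    have h3 : φ (e j : n → E) x = ∑ y, D x y * X.map σ y j := rfl
    rw [← h3, h1, Finset.sum_apply]
    apply Finset.sum_congr rfl
    intro i _
    rw [Pi.smul_apply, Algebra.smul_def, mul_comm]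
    rfl

end Pool.Agent.Q2.TMO
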