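import Pool.Agent.Q2.TMO.Inv
import Pool.Agent.Q2.TMO.Real

namespace Pool.Agent.Q2.TMO

open Matrix

variable {E n m : Type*} [Field E] [Fintype n] [DecidableEq n] [Fintype m] [DecidableEq m]

/-- The double coset statement for the operator `v ↦ A v + B (σ v)`. -/
def Good (σ : E →+* E) (A B : Matrix n n E) : Prop :=
  ∃ h1 h2 : Matrix n n E, h1 * A * h2 = Aᵀ ∧ h1 * B * h2.map σ = (B.map σ)ᵀ ∧ (h1 * h2).det = 1

theorem Good.transfer {σ : E →+* E} (hσ : ∀ x, σ (σ x) = x) {A B : Matrix n n E}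
    {A0 B0 : Matrix m m E} {U V : Matrix n m E} {U' V' : Matrix m n E}
    (hU : U * U' = 1) (hU' : U' * U = 1) (hV : V * V' = 1) (hV' : V' * V = 1)
    (hA : A * V = U * A0) (hB : B * V.map σ = U * B0) (h : Good σ A0 B0) : Good σ A B := by
  obtain ⟨k1, k2, e1, e2, e3⟩ := h
  refine ⟨V'ᵀ * k1 * U', V * k2 * Uᵀ, ?_, ?_, ?_⟩
  · calc V'ᵀ * k1 * U' * A * (V * k2 * Uᵀ) = V'ᵀ * k1 * U' * (A * V) * k2 * Uᵀ := by
          simp only [Matrix.mul_assoc]
      _ = V'ᵀ * (k1 * ((U' * U) * A0) * k2) * Uᵀ := by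
          rw [hA]
          simp only [Matrix.mul_assoc]
      _ = V'ᵀ * (A0ᵀ * Uᵀ) := by
          rw [hU', Matrix.one_mul, e1, Matrix.mul_assoc]
      _ = Aᵀ := by
          rw [← Matrix.transpose_mul, ← Matrix.transpose_mul, ← hA, Matrix.mul_assoc, hV,
            Matrix.mul_one]
  · have hVm : (V.map σ).map σ = V := map_map_inv σ hσ V
    calc V'ᵀ * k1 * U' * B * (V * k2 * Uᵀ).map σ =
          V'ᵀ * k1 * U' * (B * V.map σ) * k2.map σ * (Uᵀ).map σ := by
          simp only [Matrix.map_mul, Matrix.mul_assoc]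
      _ = V'ᵀ * (k1 * ((U' * U) * B0) * k2.map σ) * (Uᵀ).map σ := by
          rw [hB]
          simp only [Matrix.mul_assoc]
      _ = V'ᵀ * ((B0.map σ)ᵀ * (U.map σ)ᵀ) := by
          rw [hU', Matrix.one_mul, e2, Matrix.mul_assoc, Matrix.transpose_map]
      _ = (B.map σ)ᵀ := by
          rw [← Matrix.transpose_mul, ← Matrix.transpose_mul, ← Matrix.map_mul, ← hB,
            Matrix.map_mul, hVm, Matrix.mul_assoc, hV, Matrix.mul_one]
  · have h1 : V'ᵀ * Vᵀ = 1 := by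
      rw [← Matrix.transpose_mul, hV, Matrix.transpose_one]
    have h2 : Vᵀ * V'ᵀ = 1 := by
      rw [← Matrix.transpose_mul, hV', Matrix.transpose_one]
    have h3 : V'ᵀ * k1 * U' * (V * k2 * Uᵀ) =
        V'ᵀ * (k1 * (U' * V) * k2 * (Uᵀ * V'ᵀ)) * Vᵀ := by
      calc V'ᵀ * k1 * U' * (V * k2 * Uᵀ) = V'ᵀ * (k1 * (U' * V) * k2 * (Uᵀ * (V'ᵀ * Vᵀ))) := by
            rw [h1, Matrix.mul_one]
            simp only [Matrix.mul_assoc]
        _ = _ := by simp only [Matrix.mul_assoc]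
    rw [h3, Matrix.det_conj_of_mul_eq_one h1 h2]
    rw [Matrix.det_mul, Matrix.det_mul, Matrix.det_mul]
    have h4 : (U' * V).det * (Uᵀ * V'ᵀ).det = 1 := by
      rw [← Matrix.transpose_mul, Matrix.det_transpose, ← Matrix.det_mul]
      have : U' * V * (V' * U) = 1 := by
        calc U' * V * (V' * U) = U' * (V * V') * U := by simp only [Matrix.mul_assoc]
          _ = 1 := by rw [hV, Matrix.mul_one, hU']
      rw [this, Matrix.det_one]
    rw [Matrix.det_mul] at e3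
    calc k1.det * (U' * V).det * k2.det * (Uᵀ * V'ᵀ).det =
          (k1.det * k2.det) * ((U' * V).det * (Uᵀ * V'ᵀ).det) := by ring
      _ = 1 := by rw [e3, h4, one_mul]

theorem Good.sum {σ : E →+* E} {A1 B1 : Matrix n n E} {A2 B2 : Matrix m m E}
    (h : Good σ A1 B1) (h' : Good σ A2 B2) :
    Good σ (fromBlocks A1 0 0 A2) (fromBlocks B1 0 0 B2) := by
  obtain ⟨k1, k2, e1, e2, e3⟩ := h
  obtain ⟨l1, l2, f1, f2, f3⟩ := h'
  refine ⟨fromBlocks k1 0 0 l1, fromBlocks k2 0 0 l2, ?_, ?_, ?_⟩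
  · rw [fromBlocks_multiply, fromBlocks_multiply, fromBlocks_transpose]
    simp [e1, f1]
  · rw [fromBlocks_map, fromBlocks_map, fromBlocks_multiply, fromBlocks_multiply,
      fromBlocks_transpose]
    simp [e2, f2, Matrix.map_zero _ (map_zero σ)]
  · rw [fromBlocks_multiply]
    simp [e3, f3]

/-- rational pair `(N, 1)` -/
theorem good_left {F : Type*} [Field F] [Algebra F E] {σ : E →+* E}
    (hσF : ∀ a : F, σ (algebraMap F E a) = algebraMap F E a) (N : Matrix n n F) :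
    Good σ (N.map (algebraMap F E)) 1 := by
  obtain ⟨w, hw, hw2⟩ := exists_similar_transpose N
  have hww : w * w⁻¹ = 1 := Matrix.mul_nonsing_inv w hw
  have hm : ∀ X : Matrix n n F, (X.map (algebraMap F E)).map σ = X.map (algebraMap F E) := by
    intro X
    ext i j
    simp [hσF]
  have h1 : w.map (algebraMap F E) * (w⁻¹).map (algebraMap F E) = 1 := by
    rw [← Matrix.map_mul, hww]
    simp
  refine ⟨w.map (algebraMap F E), (w⁻¹).map (algebraMap F E), ?_, ?_, ?_⟩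
  · rw [← Matrix.map_mul, ← Matrix.map_mul, hw2, Matrix.mul_assoc, hww, Matrix.mul_one,
      Matrix.transpose_map]
  · rw [hm, Matrix.mul_one, h1]
    simp
  · rw [h1, Matrix.det_one]

/-- rational pair `(1, N)` -/
theorem good_right {F : Type*} [Field F] [Algebra F E] {σ : E →+* E}
    (hσF : ∀ a : F, σ (algebraMap F E a) = algebraMap F E a) (N : Matrix n n F) :
    Good σ 1 (N.map (algebraMap F E)) := by
  obtain ⟨w, hw, hw2⟩ := exists_similar_transpose N
  have hww : w * w⁻¹ = 1 := Matrix.mul_nonsing_inv w hw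
  have hm : ∀ X : Matrix n n F, (X.map (algebraMap F E)).map σ = X.map (algebraMap F E) := by
    intro X
    ext i j
    simp [hσF]
  have h1 : w.map (algebraMap F E) * (w⁻¹).map (algebraMap F E) = 1 := by
    rw [← Matrix.map_mul, hww]
    simp
  refine ⟨w.map (algebraMap F E), (w⁻¹).map (algebraMap F E), ?_, ?_, ?_⟩
  · rw [Matrix.mul_one, h1]
    simp
  · rw [hm, hm, ← Matrix.map_mul, ← Matrix.map_mul, hw2, Matrix.mul_assoc, hww, Matrix.mul_one,
      Matrix.transpose_map]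
  · rw [h1, Matrix.det_one]

/-- case both invertible -/
theorem good_inv [Finite E] {σ : E →+* E} (hσ : ∀ x, σ (σ x) = x) (θ : E) (hθ : σ θ ≠ θ)
    (A B : Matrix n n E) (hA : IsUnit A.det) (hB : IsUnit B.det) : Good σ A B := by
  have hAA : A * A⁻¹ = 1 := Matrix.mul_nonsing_inv A hA
  have hAA' : A⁻¹ * A = 1 := Matrix.nonsing_inv_mul A hA
  have hD : IsUnit (A⁻¹ * B).det := by
    rw [Matrix.det_mul]
    exact (Matrix.isUnit_nonsing_inv_det A hA).mul hB
  obtain ⟨h, hh, hh2⟩ := exists_twisted σ hσ θ hθ (A⁻¹ * B) hD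
  have h1 : h * h⁻¹ = 1 := Matrix.mul_nonsing_inv h hh
  have h2 : h.map σ * (h⁻¹).map σ = 1 := by
    rw [← Matrix.map_mul, h1]
    simp
  have hone : (1 : Matrix n n E).map σ = 1 := Matrix.map_one σ (map_zero σ) (map_one σ)
  have g : Good σ 1 (A⁻¹ * B) := by
    refine ⟨h, h⁻¹, ?_, ?_, ?_⟩
    · rw [Matrix.mul_one, h1, Matrix.transpose_one]
    · rw [hh2, Matrix.mul_assoc, h2, Matrix.mul_one]
    · rw [h1, Matrix.det_one]
  refine Good.transfer (U := A) (U' := A⁻¹) (V := 1) (V' := 1) hσ hAA hAA' (Matrix.mul_one _)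
    (Matrix.mul_one _) rfl ?_ g
  rw [hone, Matrix.mul_one, ← Matrix.mul_assoc, hAA, Matrix.one_mul]

/-- case `B` invertible, `σ (B⁻¹ A)` nilpotent. -/
theorem good_nil_left {F : Type*} [Field F] [Algebra F E] {σ : E →+* E}
    (hσ : ∀ x, σ (σ x) = x)
    (hσF : ∀ a : F, σ (algebraMap F E a) = algebraMap F E a) (C B : Matrix n n E)
    (hB : IsUnit B.det) (k : ℕ) (hk : (C.map σ * C) ^ k = 0) : Good σ (B * C) B := by
  obtain ⟨X, N, hX, hXN⟩ := exists_real (F := F) σ hσ (C.map σ) k (by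
    rw [map_map_inv σ hσ]; exact hk)
  have hm : (N.map (algebraMap F E)).map σ = N.map (algebraMap F E) := by
    ext i j
    simp [hσF]
  have hXN2 := congrArg (fun M => M.map σ) hXN
  simp only [Matrix.map_mul, map_map_inv σ hσ, hm] at hXN2
  have hone : (1 : Matrix n n E).map σ = 1 := Matrix.map_one σ (map_zero σ) (map_one σ)
  have hXX : X * X⁻¹ = 1 := Matrix.mul_nonsing_inv X hX
  have hXX' : X⁻¹ * X = 1 := Matrix.nonsing_inv_mul X hX
  have hBB : B * B⁻¹ = 1 := Matrix.mul_nonsing_inv B hB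
  have hBB' : B⁻¹ * B = 1 := Matrix.nonsing_inv_mul B hB
  have hXm : X.map σ * (X⁻¹).map σ = 1 := by rw [← Matrix.map_mul, hXX, hone]
  have hXm' : (X⁻¹).map σ * X.map σ = 1 := by rw [← Matrix.map_mul, hXX', hone]
  refine Good.transfer (U := B * X.map σ) (U' := (X⁻¹).map σ * B⁻¹) (V := X) (V' := X⁻¹)
    hσ ?_ ?_ hXX hXX' ?_ ?_ (good_left hσF N)
  · calc B * X.map σ * ((X⁻¹).map σ * B⁻¹) = B * (X.map σ * (X⁻¹).map σ) * B⁻¹ := by
          simp only [Matrix.mul_assoc]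
      _ = 1 := by rw [hXm, Matrix.mul_one, hBB]
  · calc (X⁻¹).map σ * B⁻¹ * (B * X.map σ) = (X⁻¹).map σ * (B⁻¹ * B) * X.map σ := by
          simp only [Matrix.mul_assoc]
      _ = 1 := by rw [hBB', Matrix.mul_one, hXm']
  · rw [Matrix.mul_assoc, hXN2, Matrix.mul_assoc]
  · rw [Matrix.mul_one]

/-- case `A` invertible, `A⁻¹ B σ` nilpotent. -/
theorem good_nil_right {F : Type*} [Field F] [Algebra F E] {σ : E →+* E}
    (hσ : ∀ x, σ (σ x) = x)
    (hσF : ∀ a : F, σ (algebraMap F E a) = algebraMap F E a) (A D : Matrix n n E)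
    (hA : IsUnit A.det) (k : ℕ) (hk : (D * D.map σ) ^ k = 0) : Good σ A (A * D) := by
  obtain ⟨X, N, hX, hXN⟩ := exists_real (F := F) σ hσ D k hk
  have hXX : X * X⁻¹ = 1 := Matrix.mul_nonsing_inv X hX
  have hXX' : X⁻¹ * X = 1 := Matrix.nonsing_inv_mul X hX
  have hAA : A * A⁻¹ = 1 := Matrix.mul_nonsing_inv A hA
  have hAA' : A⁻¹ * A = 1 := Matrix.nonsing_inv_mul A hA
  refine Good.transfer (U := A * X) (U' := X⁻¹ * A⁻¹) (V := X) (V' := X⁻¹)
    hσ ?_ ?_ hXX hXX' ?_ ?_ (good_right hσF N)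
  · calc A * X * (X⁻¹ * A⁻¹) = A * (X * X⁻¹) * A⁻¹ := by
          simp only [Matrix.mul_assoc]
      _ = 1 := by rw [hXX, Matrix.mul_one, hAA]
  · calc X⁻¹ * A⁻¹ * (A * X) = X⁻¹ * (A⁻¹ * A) * X := by
          simp only [Matrix.mul_assoc]
      _ = 1 := by rw [hAA', Matrix.mul_one, hXX']
  · rw [Matrix.mul_one]
  · rw [Matrix.mul_assoc, hXN, Matrix.mul_assoc]

end Pool.Agent.Q2.TMO
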