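import Pool.Agent.Q2.TMO.Good

namespace Pool.Agent.Q2.TMO

open Matrix Module

variable {E : Type*} [Field E]

theorem exists_adapted_basis {V : Type*} [AddCommGroup V] [Module E V] [Module.Finite E V]
    (S1 S2 : Submodule E V) (h : IsCompl S1 S2) (k l : ℕ) (h1 : finrank E S1 = k)
    (h2 : finrank E S2 = l) :
    ∃ c : Basis (Fin k ⊕ Fin l) E V, (∀ j, c (Sum.inl j) ∈ S1) ∧ (∀ j, c (Sum.inr j) ∈ S2) ∧
      (∀ x ∈ S1, ∀ j, c.repr x (Sum.inr j) = 0) ∧ (∀ x ∈ S2, ∀ j, c.repr x (Sum.inl j) = 0) := by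
  let c1 : Basis (Fin k) E S1 := finBasisOfFinrankEq E S1 h1
  let c2 : Basis (Fin l) E S2 := finBasisOfFinrankEq E S2 h2
  let c := (c1.prod c2).map (Submodule.prodEquivOfIsCompl S1 S2 h)
  refine ⟨c, ?_, ?_, ?_, ?_⟩
  · intro j
    simp [c]
  · intro j
    simp [c]
  · intro x hx j
    have : (Submodule.prodEquivOfIsCompl S1 S2 h).symm x = (⟨x, hx⟩, 0) :=
      Submodule.prodEquivOfIsCompl_symm_apply_left S1 S2 h ⟨x, hx⟩
    simp [c, this]
  · intro x hx j
    have : (Submodule.prodEquivOfIsCompl S1 S2 h).symm x = (0, ⟨x, hx⟩) :=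
      Submodule.prodEquivOfIsCompl_symm_apply_right S1 S2 h ⟨x, hx⟩
    simp [c, this]

/-- the pair `(A', B')` is inverse to `(A, B)` -/
def Rel {n : Type*} [Fintype n] [DecidableEq n] (σ : E →+* E) (A B A' B' : Matrix n n E) : Prop :=
  A' * A + B' * B.map σ = 1 ∧ A' * B + B' * A.map σ = 0 ∧
    A * A' + B * B'.map σ = 1 ∧ A * B' + B * A'.map σ = 0

theorem split {n : Type*} [Fintype n] [DecidableEq n] [Finite E] (σ : E →+* E)
    (hσ : ∀ x, σ (σ x) = x)
    (A B A' B' P Q : Matrix n n E) (hrel : Rel σ A B A' B')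
    (hA : P * A = A * Q) (hB : P * B = B * Q.map σ)
    (hQ : ¬ IsUnit Q.det) (hQn : ∀ N : ℕ, Q ^ N ≠ 0) :
    ∃ k l : ℕ, k < Fintype.card n ∧ l < Fintype.card n ∧
      ∃ (U V : Matrix n (Fin k ⊕ Fin l) E) (U' V' : Matrix (Fin k ⊕ Fin l) n E)
        (A1 B1 A1' B1' : Matrix (Fin k) (Fin k) E) (A2 B2 A2' B2' : Matrix (Fin l) (Fin l) E),
        U * U' = 1 ∧ U' * U = 1 ∧ V * V' = 1 ∧ V' * V = 1 ∧
        A * V = U * fromBlocks A1 0 0 A2 ∧ B * V.map σ = U * fromBlocks B1 0 0 B2 ∧
        Rel σ A1 B1 A1' B1' ∧ Rel σ A2 B2 A2' B2' := by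
  classical
  obtain ⟨r1, r2, r3, r4⟩ := hrel
  -- choose N
  obtain ⟨N, hN1, hN2, hN0⟩ : ∃ N : ℕ,
      IsCompl (LinearMap.ker ((Matrix.toLin' Q) ^ N)) (LinearMap.range ((Matrix.toLin' Q) ^ N)) ∧
      IsCompl (LinearMap.ker ((Matrix.toLin' P) ^ N)) (LinearMap.range ((Matrix.toLin' P) ^ N)) ∧
      0 < N := by
    have e1 := (Matrix.toLin' Q).eventually_isCompl_ker_pow_range_pow
    have e2 := (Matrix.toLin' P).eventually_isCompl_ker_pow_range_pow
    obtain ⟨N, hN⟩ := ((e1.and e2).and (Filter.eventually_gt_atTop 0)).exists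
    exact ⟨N, hN.1.1, hN.1.2, hN.2⟩
  rw [← Matrix.toLin'_pow] at hN1 hN2
  have hAN : P ^ N * A = A * Q ^ N := by
    have : SemiconjBy A Q P := hA.symm
    exact (this.pow_right N).symm
  have hBN : P ^ N * B = B * (Q ^ N).map σ := by
    have : SemiconjBy B (Q.map σ) P := hB.symm
    have h2 := (this.pow_right N).symm
    have h3 : (Q ^ N).map σ = (Q.map σ) ^ N := by
      have := map_pow (RingHom.mapMatrix σ) Q N
      simpa using this
    rw [h3]
    exact h2
  set S1 := LinearMap.range (Matrix.toLin' (Q ^ N)) with hS1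
  set S2 := LinearMap.ker (Matrix.toLin' (Q ^ N)) with hS2
  set T1 := LinearMap.range (Matrix.toLin' (P ^ N)) with hT1
  set T2 := LinearMap.ker (Matrix.toLin' (P ^ N)) with hT2
  have hcomp0 : (σ ∘ (0 : n → E)) = 0 := by
    funext i
    simp
  -- A and B respect
  have hA1 : ∀ v ∈ S1, A *ᵥ v ∈ T1 := by
    rintro _ ⟨w, rfl⟩
    refine ⟨A *ᵥ w, ?_⟩
    rw [Matrix.toLin'_apply, Matrix.toLin'_apply, Matrix.mulVec_mulVec, Matrix.mulVec_mulVec, hAN]
  have hA2 : ∀ v ∈ S2, A *ᵥ v ∈ T2 := by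
    intro v hv
    rw [hS2, LinearMap.mem_ker, Matrix.toLin'_apply] at hv
    rw [hT2, LinearMap.mem_ker, Matrix.toLin'_apply, Matrix.mulVec_mulVec, hAN,
      ← Matrix.mulVec_mulVec, hv, Matrix.mulVec_zero]
  have hB1 : ∀ v ∈ S1, B *ᵥ (σ ∘ v) ∈ T1 := by
    rintro _ ⟨w, rfl⟩
    refine ⟨B *ᵥ (σ ∘ w), ?_⟩
    rw [Matrix.toLin'_apply, Matrix.toLin'_apply, Matrix.mulVec_mulVec, hBN,
      ← Matrix.mulVec_mulVec, map_mulVec_comp]
  have hB2 : ∀ v ∈ S2, B *ᵥ (σ ∘ v) ∈ T2 := by
    intro v hv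
    rw [hS2, LinearMap.mem_ker, Matrix.toLin'_apply] at hv
    rw [hT2, LinearMap.mem_ker, Matrix.toLin'_apply, Matrix.mulVec_mulVec, hBN,
      ← Matrix.mulVec_mulVec, map_mulVec_comp, hv, hcomp0, Matrix.mulVec_zero]
  -- injectivity of g
  let g : (n → E) → (n → E) := fun v => A *ᵥ v + B *ᵥ (σ ∘ v)
  have hcomp_add : ∀ v w : n → E, σ ∘ (v + w) = σ ∘ v + σ ∘ w := by
    intro v w
    funext i
    simp
  have hσσ : ∀ v : n → E, σ ∘ (σ ∘ v) = v := by
    intro v
    funext i
    simp [hσ]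
  have hginj : Function.Injective g := by
    have hleft : ∀ v, A' *ᵥ (g v) + B' *ᵥ (σ ∘ (g v)) = v := by
      intro v
      simp only [g]
      rw [hcomp_add, ← map_mulVec_comp, ← map_mulVec_comp, hσσ, Matrix.mulVec_add,
        Matrix.mulVec_add]
      simp only [Matrix.mulVec_mulVec]
      calc (A' * A) *ᵥ v + (A' * B) *ᵥ (σ ∘ v) + ((B' * A.map σ) *ᵥ (σ ∘ v) +
            (B' * B.map σ) *ᵥ v) =
            (A' * A + B' * B.map σ) *ᵥ v + (A' * B + B' * A.map σ) *ᵥ (σ ∘ v) := by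
            rw [Matrix.add_mulVec, Matrix.add_mulVec]
            abel
        _ = v := by rw [r1, r2]; simp
    exact Function.LeftInverse.injective (g := fun w => A' *ᵥ w + B' *ᵥ (σ ∘ w)) hleft
  have hcard : ∀ (X Y : Submodule E (n → E)), (∀ v ∈ X, g v ∈ Y) →
      finrank E X ≤ finrank E Y := by
    intro X Y hXY
    have h1 : Nat.card X ≤ Nat.card Y := by
      apply Nat.card_le_card_of_injective (fun v : X => (⟨g v.1, hXY v.1 v.2⟩ : Y))
      rintro ⟨a, ha⟩ ⟨b, hb⟩ hab
      exact Subtype.ext (hginj (congrArg Subtype.val hab))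
    rw [Module.natCard_eq_pow_finrank (K := E) (V := X),
      Module.natCard_eq_pow_finrank (K := E) (V := Y)] at h1
    have h2 : 1 < Nat.card E := Finite.one_lt_card
    exact (Nat.pow_le_pow_iff_right h2).1 h1
  have hf1 : finrank E S1 ≤ finrank E T1 :=
    hcard S1 T1 (fun v hv => T1.add_mem (hA1 v hv) (hB1 v hv))
  have hf2 : finrank E S2 ≤ finrank E T2 :=
    hcard S2 T2 (fun v hv => T2.add_mem (hA2 v hv) (hB2 v hv))
  have hs : finrank E S1 + finrank E S2 = Fintype.card n := by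
    rw [hS1, hS2, LinearMap.finrank_range_add_finrank_ker, finrank_fintype_fun_eq_card]
  have ht : finrank E T1 + finrank E T2 = Fintype.card n := by
    rw [hT1, hT2, LinearMap.finrank_range_add_finrank_ker, finrank_fintype_fun_eq_card]
  have hS1pos : 0 < finrank E S1 := by
    rw [Module.finrank_pos_iff_exists_ne_zero]
    by_contra hcon
    push Not at hcon
    apply hQn N
    have : ∀ v, (Q ^ N) *ᵥ v = 0 := by
      intro v
      have := hcon ⟨(Q ^ N) *ᵥ v, ⟨v, by rw [Matrix.toLin'_apply]⟩⟩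
      exact congrArg Subtype.val this
    ext i j
    have h1 := congrFun (this (Pi.single j 1)) i
    simpa using h1
  have hS2pos : 0 < finrank E S2 := by
    rw [Module.finrank_pos_iff_exists_ne_zero]
    rw [isUnit_iff_ne_zero, not_not] at hQ
    obtain ⟨v, hv0, hv⟩ := Matrix.exists_mulVec_eq_zero_iff.2 hQ
    refine ⟨⟨v, ?_⟩, fun h => hv0 (congrArg Subtype.val h)⟩
    rw [hS2, LinearMap.mem_ker, Matrix.toLin'_apply]
    obtain ⟨M, rfl⟩ : ∃ M, N = M + 1 := ⟨N - 1, by omega⟩
    rw [pow_succ, ← Matrix.mulVec_mulVec, hv, Matrix.mulVec_zero]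
  obtain ⟨c, hc1, hc2, hc3, hc4⟩ := exists_adapted_basis S1 S2 hN1.symm _ _ rfl rfl
  obtain ⟨d, hd1, hd2, hd3, hd4⟩ := exists_adapted_basis T1 T2 hN2.symm (finrank E S1)
    (finrank E S2) (by omega) (by omega)
  refine ⟨finrank E S1, finrank E S2, by omega, by omega, ?_⟩
  let V : Matrix n (Fin (finrank E S1) ⊕ Fin (finrank E S2)) E := (Pi.basisFun E n).toMatrix c
  let V' : Matrix (Fin (finrank E S1) ⊕ Fin (finrank E S2)) n E := c.toMatrix (Pi.basisFun E n)
  let U : Matrix n (Fin (finrank E S1) ⊕ Fin (finrank E S2)) E := (Pi.basisFun E n).toMatrix d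
  let U' : Matrix (Fin (finrank E S1) ⊕ Fin (finrank E S2)) n E := d.toMatrix (Pi.basisFun E n)
  have hVV' : V * V' = 1 := Basis.toMatrix_mul_toMatrix_flip _ _
  have hV'V : V' * V = 1 := Basis.toMatrix_mul_toMatrix_flip _ _
  have hUU' : U * U' = 1 := Basis.toMatrix_mul_toMatrix_flip _ _
  have hU'U : U' * U = 1 := Basis.toMatrix_mul_toMatrix_flip _ _
  have hU'v : ∀ x : n → E, ∀ i, (U' *ᵥ x) i = d.repr x i := by
    intro x i
    have h1 := Basis.toMatrix_mulVec_repr (Pi.basisFun E n) d x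
    have h2 : ((Pi.basisFun E n).repr x : n → E) = x := by
      funext i
      simp
    rw [h2] at h1
    exact congrFun h1 i
  have hVc : ∀ x j, V x j = c j x := by
    intro x j
    simp [V, Basis.toMatrix_apply]
  have hUd : ∀ x j, U x j = d j x := by
    intro x j
    simp [U, Basis.toMatrix_apply]
  have hV'v : ∀ x : n → E, ∀ i, (V' *ᵥ x) i = c.repr x i := by
    intro x i
    have h1 := Basis.toMatrix_mulVec_repr (Pi.basisFun E n) c x
    have h2 : ((Pi.basisFun E n).repr x : n → E) = x := by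
      funext i
      simp
    rw [h2] at h1
    exact congrFun h1 i
  let A0 := U' * A * V
  let B0 := U' * B * V.map σ
  let A0' := V' * A' * U
  let B0' := V' * B' * U.map σ
  have hA0 : A * V = U * A0 := by
    calc A * V = (U * U') * A * V := by rw [hUU', Matrix.one_mul]
      _ = U * A0 := by simp only [A0, Matrix.mul_assoc]
  have hB0 : B * V.map σ = U * B0 := by
    calc B * V.map σ = (U * U') * B * V.map σ := by rw [hUU', Matrix.one_mul]
      _ = U * B0 := by simp only [B0, Matrix.mul_assoc]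
  have hVm : V.map σ * V'.map σ = 1 := by
    rw [← Matrix.map_mul, hVV']
    simp
  have hUm : U.map σ * U'.map σ = 1 := by
    rw [← Matrix.map_mul, hUU']
    simp
  -- relations
  have R : Rel σ A0 B0 A0' B0' := by
    refine ⟨?_, ?_, ?_, ?_⟩
    · simp only [A0, B0, A0', B0', Matrix.map_mul, map_map_inv σ hσ]
      calc V' * A' * U * (U' * A * V) + V' * B' * U.map σ * (U'.map σ * B.map σ * V) =
            V' * (A' * (U * U') * A + B' * (U.map σ * U'.map σ) * B.map σ) * V := by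
            simp only [Matrix.mul_assoc, Matrix.mul_add, Matrix.add_mul]
        _ = 1 := by
            rw [hUU', hUm, Matrix.mul_one, Matrix.mul_one, r1, Matrix.mul_one, hV'V]
    · simp only [A0, B0, A0', B0', Matrix.map_mul]
      calc V' * A' * U * (U' * B * V.map σ) + V' * B' * U.map σ * (U'.map σ * A.map σ * V.map σ) =
            V' * (A' * (U * U') * B + B' * (U.map σ * U'.map σ) * A.map σ) * V.map σ := by
            simp only [Matrix.mul_assoc, Matrix.mul_add, Matrix.add_mul]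
        _ = 0 := by
            rw [hUU', hUm, Matrix.mul_one, Matrix.mul_one, r2, Matrix.mul_zero, Matrix.zero_mul]
    · simp only [A0, B0, A0', B0', Matrix.map_mul, map_map_inv σ hσ]
      calc U' * A * V * (V' * A' * U) + U' * B * V.map σ * (V'.map σ * B'.map σ * U) =
            U' * (A * (V * V') * A' + B * (V.map σ * V'.map σ) * B'.map σ) * U := by
            simp only [Matrix.mul_assoc, Matrix.mul_add, Matrix.add_mul]
        _ = 1 := by
            rw [hVV', hVm, Matrix.mul_one, Matrix.mul_one, r3, Matrix.mul_one, hU'U]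
    · simp only [A0, B0, A0', B0', Matrix.map_mul]
      calc U' * A * V * (V' * B' * U.map σ) + U' * B * V.map σ * (V'.map σ * A'.map σ * U.map σ) =
            U' * (A * (V * V') * B' + B * (V.map σ * V'.map σ) * A'.map σ) * U.map σ := by
            simp only [Matrix.mul_assoc, Matrix.mul_add, Matrix.add_mul]
        _ = 0 := by
            rw [hVV', hVm, Matrix.mul_one, Matrix.mul_one, r4, Matrix.mul_zero, Matrix.zero_mul]
  -- entries
  have hA0e : ∀ i j, A0 i j = d.repr (A *ᵥ (c j)) i := by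
    intro i j
    rw [← hU'v]
    have : (fun y => V y j) = c j := by
      funext y
      exact hVc y j
    rw [← this]
    simp only [A0, Matrix.mul_assoc]
    rfl
  have hB0e : ∀ i j, B0 i j = d.repr (B *ᵥ (σ ∘ (c j))) i := by
    intro i j
    rw [← hU'v]
    have : (fun y => V.map σ y j) = σ ∘ (c j) := by
      funext y
      simp [hVc y j]
    rw [← this]
    simp only [B0, Matrix.mul_assoc]
    rfl
  have hA0b : A0 = fromBlocks A0.toBlocks₁₁ 0 0 A0.toBlocks₂₂ := by
    have h12 : A0.toBlocks₁₂ = 0 := by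
      ext i j
      change A0 (Sum.inl i) (Sum.inr j) = 0
      rw [hA0e]
      exact hd4 _ (hA2 _ (hc2 j)) i
    have h21 : A0.toBlocks₂₁ = 0 := by
      ext i j
      change A0 (Sum.inr i) (Sum.inl j) = 0
      rw [hA0e]
      exact hd3 _ (hA1 _ (hc1 j)) i
    conv_lhs => rw [← fromBlocks_toBlocks A0, h12, h21]
  have hB0b : B0 = fromBlocks B0.toBlocks₁₁ 0 0 B0.toBlocks₂₂ := by
    have h12 : B0.toBlocks₁₂ = 0 := by
      ext i j
      change B0 (Sum.inl i) (Sum.inr j) = 0
      rw [hB0e]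
      exact hd4 _ (hB2 _ (hc2 j)) i
    have h21 : B0.toBlocks₂₁ = 0 := by
      ext i j
      change B0 (Sum.inr i) (Sum.inl j) = 0
      rw [hB0e]
      exact hd3 _ (hB1 _ (hc1 j)) i
    conv_lhs => rw [← fromBlocks_toBlocks B0, h12, h21]
  have key : ∀ (a1 b1 : Matrix (Fin (finrank E S1)) (Fin (finrank E S1)) E)
      (a2 b2 : Matrix (Fin (finrank E S2)) (Fin (finrank E S2)) E)
      (X Y : Matrix (Fin (finrank E S1) ⊕ Fin (finrank E S2))
        (Fin (finrank E S1) ⊕ Fin (finrank E S2)) E),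
      Rel σ (fromBlocks a1 0 0 a2) (fromBlocks b1 0 0 b2) X Y →
      Rel σ a1 b1 X.toBlocks₁₁ Y.toBlocks₁₁ ∧ Rel σ a2 b2 X.toBlocks₂₂ Y.toBlocks₂₂ := by
    intro a1 b1 a2 b2 X Y hR
    obtain ⟨s1, s2, s3, s4⟩ := hR
    have hXm : X.map σ = fromBlocks (X.toBlocks₁₁.map σ) (X.toBlocks₁₂.map σ)
        (X.toBlocks₂₁.map σ) (X.toBlocks₂₂.map σ) := by
      conv_lhs => rw [← fromBlocks_toBlocks X]
      rw [fromBlocks_map]
    have hYm : Y.map σ = fromBlocks (Y.toBlocks₁₁.map σ) (Y.toBlocks₁₂.map σ)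
        (Y.toBlocks₂₁.map σ) (Y.toBlocks₂₂.map σ) := by
      conv_lhs => rw [← fromBlocks_toBlocks Y]
      rw [fromBlocks_map]
    rw [fromBlocks_map, ← fromBlocks_toBlocks X, ← fromBlocks_toBlocks Y, fromBlocks_multiply,
      fromBlocks_multiply, fromBlocks_add, ← fromBlocks_one, fromBlocks_inj] at s1
    rw [fromBlocks_map, ← fromBlocks_toBlocks X, ← fromBlocks_toBlocks Y, fromBlocks_multiply,
      fromBlocks_multiply, fromBlocks_add, ← fromBlocks_zero, fromBlocks_inj] at s2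
    rw [hYm, ← fromBlocks_toBlocks X, fromBlocks_multiply,
      fromBlocks_multiply, fromBlocks_add, ← fromBlocks_one, fromBlocks_inj] at s3
    rw [hXm, ← fromBlocks_toBlocks Y, fromBlocks_multiply,
      fromBlocks_multiply, fromBlocks_add, ← fromBlocks_zero, fromBlocks_inj] at s4
    simp only [Matrix.map_zero _ (map_zero σ), Matrix.mul_zero, Matrix.zero_mul, add_zero,
      zero_add] at s1 s2 s3 s4
    exact ⟨⟨s1.1, s2.1, s3.1, s4.1⟩, ⟨s1.2.2.2, s2.2.2.2, s3.2.2.2, s4.2.2.2⟩⟩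
  have R' := R
  rw [hA0b, hB0b] at R'
  obtain ⟨R1, R2⟩ := key _ _ _ _ _ _ R'
  exact ⟨U, V, U', V', A0.toBlocks₁₁, B0.toBlocks₁₁, A0'.toBlocks₁₁, B0'.toBlocks₁₁,
    A0.toBlocks₂₂, B0.toBlocks₂₂, A0'.toBlocks₂₂, B0'.toBlocks₂₂, hUU', hU'U, hVV', hV'V,
    by rw [hA0]; exact congrArg (fun M => U * M) hA0b,
    by rw [hB0]; exact congrArg (fun M => U * M) hB0b, R1, R2⟩

theorem nil_of {n : Type*} [Fintype n] [DecidableEq n] (W Z Y : Matrix n n E) (hWZ : Commute W Z)
    (hW : IsUnit W.det) (N : ℕ) (hZ : Z ^ N = 0) (h : W * Y = - Z) : Y ^ N = 0 := by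
  have h1 : W * W⁻¹ = 1 := Matrix.mul_nonsing_inv W hW
  have h2 : W⁻¹ * W = 1 := Matrix.nonsing_inv_mul W hW
  have h3 : Y = - (W⁻¹ * Z) := by
    calc Y = W⁻¹ * (W * Y) := by rw [← Matrix.mul_assoc, h2, Matrix.one_mul]
      _ = _ := by rw [h, Matrix.mul_neg]
  have h4 : Commute W⁻¹ Z := by
    change W⁻¹ * Z = Z * W⁻¹
    calc W⁻¹ * Z = W⁻¹ * (Z * W) * W⁻¹ := by
          rw [Matrix.mul_assoc, Matrix.mul_assoc, h1, Matrix.mul_one]
      _ = Z * W⁻¹ := by rw [← hWZ.eq, ← Matrix.mul_assoc, h2, Matrix.one_mul]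
  rw [h3, neg_pow, h4.mul_pow, hZ, Matrix.mul_zero, Matrix.mul_zero]

theorem good_of_rel {F : Type*} [Field F] [Algebra F E] [Finite E] (σ : E →+* E)
    (hσ : ∀ x, σ (σ x) = x) (hσF : ∀ a : F, σ (algebraMap F E a) = algebraMap F E a)
    (θ : E) (hθ : σ θ ≠ θ) (M : ℕ) :
    ∀ (n : Type) [Fintype n] [DecidableEq n], Fintype.card n = M →
      ∀ A B A' B' : Matrix n n E, Rel σ A B A' B' → Good σ A B := by
  classical
  induction M using Nat.strong_induction_on with
  | _ M ih =>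
    intro n _ _ hn A B A' B' hrel
    have hrel' := hrel
    obtain ⟨r1, r2, r3, r4⟩ := hrel'
    have hPA : (A * A') * A = A * (A' * A) := Matrix.mul_assoc _ _ _
    have hPB : (A * A') * B = B * (A' * A).map σ := by
      have e1 : A' * B = - (B' * A.map σ) := eq_neg_of_add_eq_zero_left r2
      have e2 : A * B' = - (B * A'.map σ) := eq_neg_of_add_eq_zero_left r4
      rw [Matrix.mul_assoc, e1, Matrix.mul_neg, ← Matrix.mul_assoc, e2, Matrix.neg_mul, neg_neg,
        Matrix.map_mul, Matrix.mul_assoc]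
    have hone : (1 : Matrix n n E).map σ = 1 := Matrix.map_one σ (map_zero σ) (map_one σ)
    have hPA' : (1 - A * A') * A = A * (1 - A' * A) := by
      rw [Matrix.sub_mul, Matrix.mul_sub, hPA, Matrix.one_mul, Matrix.mul_one]
    have hPB' : (1 - A * A') * B = B * (1 - A' * A).map σ := by
      have : (1 - A' * A).map σ = 1 - (A' * A).map σ := by
        have := map_sub (RingHom.mapMatrix σ) 1 (A' * A)
        simpa using this
      rw [this, Matrix.sub_mul, Matrix.mul_sub, hPB, Matrix.one_mul, Matrix.mul_one]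
    have h1Q : 1 - A' * A = B' * B.map σ := by
      rw [← r1]
      abel
    have hdetmap : ∀ X : Matrix n n E, (X.map σ).det = σ X.det := by
      intro X
      have := RingHom.map_det σ X
      rw [this]
      rfl
    have splitcase : ∀ P Q : Matrix n n E, P * A = A * Q → P * B = B * Q.map σ →
        ¬ IsUnit Q.det → (∀ N : ℕ, Q ^ N ≠ 0) → Good σ A B := by
      intro P Q h1 h2 h3 h4
      obtain ⟨k, l, hk, hl, U, V, U', V', A1, B1, A1', B1', A2, B2, A2', B2', u1, u2, v1, v2, a, b,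
        R1, R2⟩ := split σ hσ A B A' B' P Q hrel h1 h2 h3 h4
      have g1 := ih k (by omega) (Fin k) (Fintype.card_fin k) A1 B1 A1' B1' R1
      have g2 := ih l (by omega) (Fin l) (Fintype.card_fin l) A2 B2 A2' B2' R2
      exact Good.transfer hσ u1 u2 v1 v2 a b (Good.sum g1 g2)
    by_cases c1 : ¬ IsUnit (A' * A).det ∧ ∀ N : ℕ, (A' * A) ^ N ≠ 0
    · exact splitcase _ _ hPA hPB c1.1 c1.2
    by_cases c2 : ¬ IsUnit (1 - A' * A).det ∧ ∀ N : ℕ, (1 - A' * A) ^ N ≠ 0
    · exact splitcase _ _ hPA' hPB' c2.1 c2.2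
    have hcomm : Commute (1 - A' * A) (A' * A) := (Commute.one_left _).sub_left (Commute.refl _)
    by_cases c3 : ∃ N : ℕ, (A' * A) ^ N = 0
    · obtain ⟨N, hN⟩ := c3
      have hu : IsUnit (1 - A' * A).det := by
        rw [← Matrix.isUnit_iff_isUnit_det]
        exact IsNilpotent.isUnit_one_sub ⟨N, hN⟩
      have hB : IsUnit B.det := by
        have h1 : IsUnit (B' * B.map σ).det := h1Q ▸ hu
        rw [Matrix.det_mul, hdetmap] at h1
        have h2 := (isUnit_iff_ne_zero.1 h1)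
        rw [isUnit_iff_ne_zero]
        intro h0
        apply h2
        rw [h0, map_zero, mul_zero]
      have hBB : B * B⁻¹ = 1 := Matrix.mul_nonsing_inv B hB
      obtain ⟨C, hA⟩ : ∃ C, A = B * C :=
        ⟨B⁻¹ * A, by rw [← Matrix.mul_assoc, hBB, Matrix.one_mul]⟩
      have hgoal : Good σ (B * C) B := by
        apply good_nil_left (F := F) hσ hσF _ _ hB N
        apply nil_of (1 - A' * A) (A' * A) _ hcomm hu N hN
        rw [h1Q]
        calc B' * B.map σ * (C.map σ * C) = B' * (B * C).map σ * C := by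
              rw [Matrix.map_mul]
              simp only [Matrix.mul_assoc]
          _ = B' * A.map σ * C := by rw [hA]
          _ = - (A' * B) * C := by rw [eq_neg_of_add_eq_zero_right r2]
          _ = - (A' * (B * C)) := by rw [Matrix.neg_mul, Matrix.mul_assoc]
          _ = - (A' * A) := by rw [hA]
      rw [hA]
      exact hgoal
    by_cases c4 : ∃ N : ℕ, (1 - A' * A) ^ N = 0
    · obtain ⟨N, hN⟩ := c4
      have hu : IsUnit (A' * A).det := by
        rw [← Matrix.isUnit_iff_isUnit_det]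
        have := IsNilpotent.isUnit_one_sub (r := 1 - A' * A) ⟨N, hN⟩
        rwa [sub_sub_cancel] at this
      have hA : IsUnit A.det := by
        rw [Matrix.det_mul] at hu
        exact isUnit_of_mul_isUnit_right hu
      have hAA : A * A⁻¹ = 1 := Matrix.mul_nonsing_inv A hA
      obtain ⟨D, hB⟩ : ∃ D, B = A * D :=
        ⟨A⁻¹ * B, by rw [← Matrix.mul_assoc, hAA, Matrix.one_mul]⟩
      have hgoal : Good σ A (A * D) := by
        apply good_nil_right (F := F) hσ hσF _ _ hA N
        apply nil_of (A' * A) (1 - A' * A) _ hcomm.symm hu N hN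
        rw [h1Q]
        calc A' * A * (D * D.map σ) = A' * (A * D) * D.map σ := by
              simp only [Matrix.mul_assoc]
          _ = A' * B * D.map σ := by rw [hB]
          _ = - (B' * A.map σ) * D.map σ := by rw [eq_neg_of_add_eq_zero_left r2]
          _ = - (B' * (A * D).map σ) := by rw [Matrix.neg_mul, Matrix.map_mul, Matrix.mul_assoc]
          _ = - (B' * B.map σ) := by rw [hB]
      rw [hB]
      exact hgoal
    · have hu1 : IsUnit (A' * A).det := by
        by_contra h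
        exact c1 ⟨h, fun N hN => c3 ⟨N, hN⟩⟩
      have hu2 : IsUnit (1 - A' * A).det := by
        by_contra h
        exact c2 ⟨h, fun N hN => c4 ⟨N, hN⟩⟩
      have hA : IsUnit A.det := by
        rw [Matrix.det_mul] at hu1
        exact isUnit_of_mul_isUnit_right hu1
      have hB : IsUnit B.det := by
        have h1 : IsUnit (B' * B.map σ).det := h1Q ▸ hu2
        rw [Matrix.det_mul, hdetmap] at h1
        have h2 := (isUnit_iff_ne_zero.1 h1)
        rw [isUnit_iff_ne_zero]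
        intro h0
        apply h2
        rw [h0, map_zero, mul_zero]
      exact good_inv hσ θ hθ A B hA hB

end Pool.Agent.Q2.TMO
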