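import Mathlib

namespace Pool.Agent.Q2.TMO

open Polynomial

/-- On a quotient of `k[X]` by a power of an irreducible polynomial there is a linear functional
which does not vanish on any nonzero ideal. -/
theorem exists_lam {k : Type*} [Field k] (p : k[X]) (e : ℕ) (hp : Irreducible p) :
    ∃ L : (k[X] ⧸ (Ideal.span {p ^ e})) →ₗ[k] k, ∀ a : (k[X] ⧸ (Ideal.span {p ^ e})), a ≠ 0 →
      ∃ b : (k[X] ⧸ (Ideal.span {p ^ e})), L (b * a) ≠ 0 := by
  classical
  rcases Nat.eq_zero_or_pos e with he | he
  · refine ⟨0, fun a ha => ?_⟩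
    exfalso
    apply ha
    have : Ideal.span {p ^ e} = ⊤ := by
      rw [he, pow_zero]
      exact Ideal.span_singleton_one
    obtain ⟨a0, rfl⟩ := Ideal.Quotient.mk_surjective a
    rw [Ideal.Quotient.eq_zero_iff_mem, this]
    trivial
  · set m : k[X] ⧸ (Ideal.span {p ^ e}) := Ideal.Quotient.mk _ (p ^ (e - 1)) with hm
    have hm0 : m ≠ 0 := by
      rw [hm, Ne, Ideal.Quotient.eq_zero_iff_mem, Ideal.mem_span_singleton]
      intro h
      have := (pow_dvd_pow_iff hp.ne_zero hp.not_isUnit).1 h
      omega
    have : ∃ L : Module.Dual k (k[X] ⧸ (Ideal.span {p ^ e})), L m ≠ 0 := by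
      by_contra hcon
      push Not at hcon
      exact hm0 ((Module.forall_dual_apply_eq_zero_iff k m).1 hcon)
    obtain ⟨L, hL⟩ := this
    refine ⟨L, fun a ha => ?_⟩
    obtain ⟨a0, rfl⟩ := Ideal.Quotient.mk_surjective a
    rw [Ne, Ideal.Quotient.eq_zero_iff_mem, Ideal.mem_span_singleton] at ha
    have hg : gcd a0 (p ^ e) ∣ p ^ e := gcd_dvd_right _ _
    obtain ⟨j, hj, hj2⟩ := (dvd_prime_pow hp.prime e).1 hg
    have hje : j < e := by
      rcases Nat.lt_or_ge j e with h | h
      · exact h
      · exfalso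
        apply ha
        have : j = e := le_antisymm hj h
        rw [this] at hj2
        exact (hj2.symm.dvd).trans (gcd_dvd_left _ _)
    have hbez : ∃ x y : k[X], a0 * x + p ^ e * y = p ^ j := by
      have h1 : IsBezout k[X] := inferInstance
      have h2 : p ^ j ∈ Ideal.span {a0, p ^ e} := by
        rw [← span_gcd, Ideal.mem_span_singleton]
        exact hj2.dvd
      rw [Ideal.mem_span_pair] at h2
      obtain ⟨x, y, hxy⟩ := h2
      exact ⟨x, y, by rw [← hxy]; ring⟩
    obtain ⟨x, y, hxy⟩ := hbez
    refine ⟨Ideal.Quotient.mk _ (p ^ (e - 1 - j) * x), ?_⟩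
    have : (Ideal.Quotient.mk (Ideal.span {p ^ e})) (p ^ (e - 1 - j) * x) *
        (Ideal.Quotient.mk (Ideal.span {p ^ e})) a0 = m := by
      rw [hm, ← map_mul, Ideal.Quotient.eq, Ideal.mem_span_singleton]
      refine ⟨- (p ^ (e - 1 - j) * y), ?_⟩
      have h3 : p ^ (e - 1) = p ^ (e - 1 - j) * p ^ j := by
        rw [← pow_add]
        congr 1
        omega
      rw [h3, ← hxy]
      ring
    rw [this]
    exact hL

/-- Every endomorphism of a finite dimensional space is self-adjoint for some
non-degenerate bilinear form. -/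
theorem exists_selfadj {k N : Type*} [Field k] [AddCommGroup N] [Module k N]
    [Module.Finite k N] (T : N →ₗ[k] N) :
    ∃ B : N →ₗ[k] N →ₗ[k] k, (∀ u v, B (T u) v = B u (T v)) ∧
      (∀ v, (∀ u, B u v = 0) → v = 0) := by
  classical
  obtain ⟨ι, _, p, hp, e, ⟨φ⟩⟩ := Module.equiv_directSum_of_isTorsion
    (R := k[X]) (M := Module.AEval' T) (Module.AEval.isTorsion_of_finiteDimensional k N T)
  choose L hL using fun i => exists_lam (p i) (e i) (hp i)
  let c : ∀ i, N →ₗ[k] (k[X] ⧸ (Ideal.span {p i ^ e i})) := fun i =>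
    { toFun := fun x => φ (Module.AEval'.of T x) i
      map_add' := by
        intro x y
        rw [map_add, map_add]
        rfl
      map_smul' := by
        intro t x
        rw [map_smul, ← Module.AEval.C_smul, map_smul]
        change (C t : k[X]) • (φ (Module.AEval'.of T x) i) = _
        rw [RingHom.id_apply]
        rw [← algebraMap_smul k[X] t]
        rfl }
  have hcX : ∀ i x, c i (T x) = Ideal.Quotient.mk _ X * c i x := by
    intro i x
    change φ (Module.AEval'.of T (T x)) i = _
    rw [← Module.AEval'.X_smul_of, map_smul]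
    rfl
  have hcsm : ∀ (f : k[X]) i x, c i ((Module.AEval'.of T).symm (f • (Module.AEval'.of T x))) =
      Ideal.Quotient.mk _ f * c i x := by
    intro f i x
    change φ (Module.AEval'.of T _) i = _
    rw [LinearEquiv.apply_symm_apply, map_smul]
    rfl
  refine ⟨∑ i, LinearMap.mk₂ k (fun x y => L i (c i x * c i y)) ?_ ?_ ?_ ?_, ?_, ?_⟩
  · intro a b y
    rw [map_add, add_mul, map_add]
  · intro t a y
    rw [map_smul, smul_mul_assoc, map_smul]
  · intro a b y
    rw [map_add, mul_add, map_add]
  · intro t a y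
    rw [map_smul, mul_smul_comm, map_smul]
  · intro u v
    simp only [LinearMap.sum_apply, LinearMap.mk₂_apply]
    apply Finset.sum_congr rfl
    intro i _
    rw [hcX, hcX]
    congr 1
    ring
  · intro v hv
    have hall : ∀ i, c i v = 0 := by
      intro i
      by_contra hne
      obtain ⟨b, hb⟩ := hL i _ hne
      apply hb
      have h1 := hv ((Module.AEval'.of T).symm (φ.symm (DirectSum.lof k[X] ι
        (fun i => k[X] ⧸ (Ideal.span {p i ^ e i})) i b)))
      simp only [LinearMap.sum_apply, LinearMap.mk₂_apply] at h1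
      have h2 : ∀ j, c j ((Module.AEval'.of T).symm (φ.symm (DirectSum.lof k[X] ι
        (fun i => k[X] ⧸ (Ideal.span {p i ^ e i})) i b))) =
          (DirectSum.lof k[X] ι (fun i => k[X] ⧸ (Ideal.span {p i ^ e i})) i b) j := by
        intro j
        change φ (Module.AEval'.of T _) j = _
        rw [LinearEquiv.apply_symm_apply, LinearEquiv.apply_symm_apply]
      rw [Finset.sum_eq_single i] at h1
      · rw [h2, DirectSum.lof_apply] at h1
        exact h1
      · intro j _ hj
        rw [h2, DirectSum.lof_eq_of, DirectSum.of_eq_of_ne _ _ _ hj, zero_mul, map_zero]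
      · intro h
        exact absurd (Finset.mem_univ i) h
    have h3 : φ (Module.AEval'.of T v) = 0 := by
      apply DFinsupp.ext
      intro i
      exact hall i
    rw [LinearEquiv.map_eq_zero_iff, LinearEquiv.map_eq_zero_iff] at h3
    exact h3

/-- A square matrix over a field is similar to its transpose. -/
theorem exists_similar_transpose {k n : Type*} [Field k] [Fintype n] [DecidableEq n]
    (Z : Matrix n n k) : ∃ h : Matrix n n k, IsUnit h.det ∧ h * Z = Z.transpose * h := by
  obtain ⟨B, hB1, hB2⟩ := exists_selfadj (Matrix.toLin' Z)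
  let h : Matrix n n k := fun i j => B (Pi.single i 1) (Pi.single j 1)
  have hh : ∀ u v : n → k, B u v = u ⬝ᵥ (h.mulVec v) := by
    intro u v
    have hu : u = ∑ i, u i • (Pi.single i 1 : n → k) := by
      ext j
      simp [Finset.sum_apply, Pi.single_apply]
    have hv : v = ∑ i, v i • (Pi.single i 1 : n → k) := by
      ext j
      simp [Finset.sum_apply, Pi.single_apply]
    conv_lhs => rw [hu, hv]
    simp only [map_sum, LinearMap.sum_apply, map_smul, LinearMap.smul_apply, smul_eq_mul,
      dotProduct, Matrix.mulVec, Finset.mul_sum, h]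
    rw [Finset.sum_comm]
    apply Finset.sum_congr rfl
    intro i _
    apply Finset.sum_congr rfl
    intro j _
    ring
  have hadj : ∀ u v : n → k, (Z.mulVec u) ⬝ᵥ (h.mulVec v) = u ⬝ᵥ (h.mulVec (Z.mulVec v)) := by
    intro u v
    rw [← hh, ← hh]
    exact hB1 u v
  refine ⟨h, ?_, ?_⟩
  · rw [isUnit_iff_ne_zero]
    intro hdet
    obtain ⟨v, hv0, hv⟩ := Matrix.exists_mulVec_eq_zero_iff.2 hdet
    apply hv0
    apply hB2
    intro u
    rw [hh, hv, dotProduct_zero]
  · have : ∀ u v : n → k, u ⬝ᵥ ((h * Z).mulVec v) = u ⬝ᵥ ((Z.transpose * h).mulVec v) := by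
      intro u v
      rw [← Matrix.mulVec_mulVec, ← Matrix.mulVec_mulVec, ← hadj, Matrix.dotProduct_mulVec,
        Matrix.dotProduct_mulVec, Matrix.dotProduct_mulVec, Matrix.vecMul_transpose]
    ext i j
    have h1 := this (Pi.single i 1) (Pi.single j 1)
    simpa using h1

end Pool.Agent.Q2.TMO
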