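import Pool.Agent.Q2.TMO.Mob
import Pool.Agent.Q2.TMO.Tr

namespace Pool.Agent.Q2.TMO

open Matrix

variable {E n : Type*} [Field E] [Finite E] [Fintype n] [DecidableEq n]

omit [Finite E] [Fintype n] [DecidableEq n] in
theorem map_map_inv (σ : E →+* E) (hσ : ∀ x, σ (σ x) = x) {m : Type*} (X : Matrix m n E) :
    (X.map σ).map σ = X := by
  ext i j
  simp [hσ]

omit [Finite E] [DecidableEq n] in
theorem map_mulVec_comp (σ : E →+* E) (X : Matrix n n E) (v : n → E) :
    (X.map σ) *ᵥ (σ ∘ v) = σ ∘ (X *ᵥ v) := by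
  funext i
  simp [Matrix.mulVec, dotProduct, map_sum]

theorem cnt (σ : E →+* E) (hσ : ∀ x, σ (σ x) = x) (θ : E) (hθ : σ θ ≠ θ)
    (D D' : Matrix n n E) (hD : IsUnit D.det)
    (K : Submodule E (n → E)) (hK : ∀ v ∈ K, D *ᵥ (σ ∘ v) ∈ K) :
    Nat.card {X : Matrix n n E // X * (D * D.map σ) = (D' * D'.map σ) * X ∧ ∀ v ∈ K, X *ᵥ v = 0} =
    Nat.card {X : Matrix n n E // X * D = D' * X.map σ ∧ ∀ v ∈ K, X *ᵥ v = 0} ^ 2 := by
  classical
  let S : Submodule E (Matrix n n E) :=
    { carrier := {X | X * (D * D.map σ) = (D' * D'.map σ) * X ∧ ∀ v ∈ K, X *ᵥ v = 0}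
      add_mem' := by
        rintro a b ⟨ha1, ha2⟩ ⟨hb1, hb2⟩
        refine ⟨by rw [add_mul, mul_add, ha1, hb1], fun v hv => ?_⟩
        rw [add_mulVec, ha2 v hv, hb2 v hv, add_zero]
      zero_mem' := by
        refine ⟨by simp, fun v _ => by simp⟩
      smul_mem' := by
        rintro c a ⟨ha1, ha2⟩
        refine ⟨by rw [smul_mul_assoc, mul_smul_comm, ha1], fun v hv => ?_⟩
        rw [smul_mulVec, ha2 v hv, smul_zero] }
  have hKsurj : ∀ v ∈ K, ∃ u ∈ K, D *ᵥ (σ ∘ u) = v := by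
    let f : K → K := fun v => ⟨D *ᵥ (σ ∘ v.1), hK v.1 v.2⟩
    have hf : Function.Injective f := by
      rintro ⟨a, ha⟩ ⟨b, hb⟩ hab
      have h1 : D *ᵥ (σ ∘ a) = D *ᵥ (σ ∘ b) := congrArg Subtype.val hab
      have h2 : σ ∘ a = σ ∘ b :=
        Matrix.mulVec_injective_iff_isUnit.2 ((Matrix.isUnit_iff_isUnit_det D).2 hD) h1
      apply Subtype.ext
      funext i
      exact σ.injective (congrFun h2 i)
    have hf2 : Function.Surjective f := Finite.surjective_of_injective hf
    intro v hv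
    obtain ⟨⟨u, hu⟩, hu2⟩ := hf2 ⟨v, hv⟩
    exact ⟨u, hu, congrArg Subtype.val hu2⟩
  have hDi : D * D⁻¹ = 1 := Matrix.mul_nonsing_inv D hD
  have hDi' : D⁻¹ * D = 1 := Matrix.nonsing_inv_mul D hD
  have hDb : D.map σ * (D⁻¹).map σ = 1 := by
    rw [← Matrix.map_mul, hDi]
    simp
  have hmv : ∀ (X : Matrix n n E) (v : n → E), (X.map σ) *ᵥ (σ ∘ v) = σ ∘ (X *ᵥ v) := by
    intro X v
    funext i
    simp [Matrix.mulVec, dotProduct, map_sum]
  have key := card_sq σ hσ θ hθ S (fun X => D' * X.map σ * D⁻¹) ?_ ?_ ?_ ?_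
  · have e1 : Nat.card S = Nat.card {X : Matrix n n E // X * (D * D.map σ) = (D' * D'.map σ) * X ∧
        ∀ v ∈ K, X *ᵥ v = 0} := rfl
    rw [← e1, key]
    congr 1
    apply Nat.card_congr
    apply Equiv.subtypeEquivRight
    intro X
    constructor
    · rintro ⟨⟨_, h2⟩, h3⟩
      refine ⟨?_, h2⟩
      conv_lhs => rw [← h3]
      rw [Matrix.mul_assoc, hDi', Matrix.mul_one]
    · rintro ⟨h1, h2⟩
      refine ⟨⟨?_, h2⟩, ?_⟩
      · rw [← Matrix.mul_assoc, h1, Matrix.mul_assoc, ← Matrix.map_mul, h1, Matrix.map_mul,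
          map_map_inv σ hσ, Matrix.mul_assoc]
      · change D' * X.map σ * D⁻¹ = X
        rw [← h1, Matrix.mul_assoc, hDi, Matrix.mul_one]
  · intro a b
    have : (a + b).map σ = a.map σ + b.map σ := by
      ext i j
      simp
    change D' * (a + b).map σ * D⁻¹ = _
    rw [this, Matrix.mul_add, Matrix.add_mul]
  · intro e w
    have : (e • w).map σ = σ e • w.map σ := by
      ext i j
      simp
    change D' * (e • w).map σ * D⁻¹ = _
    rw [this, Matrix.mul_smul, Matrix.smul_mul]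
  · rintro w ⟨h1, h2⟩
    refine ⟨?_, ?_⟩
    · have h3 := congrArg (fun M => M.map σ) h1
      simp only [Matrix.map_mul, map_map_inv σ hσ] at h3
      -- w̄ * (D̄ * D) = D̄' * D' * w̄
      calc D' * w.map σ * D⁻¹ * (D * D.map σ) = D' * w.map σ * (D⁻¹ * D) * D.map σ := by
            simp only [Matrix.mul_assoc]
        _ = D' * (w.map σ * (D.map σ * D)) * D⁻¹ := by
            rw [hDi', Matrix.mul_one]
            simp only [Matrix.mul_assoc, hDi, Matrix.mul_one]
        _ = D' * D'.map σ * (D' * w.map σ * D⁻¹) := by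
            rw [h3]
            simp only [Matrix.mul_assoc]
    · intro v hv
      obtain ⟨u, hu, hu2⟩ := hKsurj v hv
      rw [← hu2, Matrix.mulVec_mulVec, Matrix.mul_assoc, hDi', Matrix.mul_one,
        ← Matrix.mulVec_mulVec, hmv, h2 u hu]
      have : (σ ∘ (0 : n → E)) = 0 := by
        funext i
        simp
      rw [this, Matrix.mulVec_zero]
  · rintro w ⟨h1, h2⟩
    change D' * (D' * w.map σ * D⁻¹).map σ * D⁻¹ = w
    rw [Matrix.map_mul, Matrix.map_mul, map_map_inv σ hσ]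
    calc D' * (D'.map σ * w * (D⁻¹).map σ) * D⁻¹ = (D' * D'.map σ * w) * (D⁻¹).map σ * D⁻¹ := by
          simp only [Matrix.mul_assoc]
      _ = w := by
          rw [← h1]
          calc w * (D * D.map σ) * (D⁻¹).map σ * D⁻¹ = w * (D * (D.map σ * (D⁻¹).map σ) * D⁻¹) := by
                simp only [Matrix.mul_assoc]
            _ = w := by
                rw [hDb, Matrix.mul_one, hDi, Matrix.mul_one]

/-- twisted similarity of an invertible matrix with its conjugate transpose. -/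
theorem exists_twisted (σ : E →+* E) (hσ : ∀ x, σ (σ x) = x) (θ : E) (hθ : σ θ ≠ θ)
    (D : Matrix n n E) (hD : IsUnit D.det) :
    ∃ h : Matrix n n E, IsUnit h.det ∧ h * D = (D.map σ).transpose * h.map σ := by
  classical
  set D' : Matrix n n E := (D.map σ).transpose with hD'
  have hZ : D' * D'.map σ = (D * D.map σ).transpose := by
    rw [Matrix.transpose_mul, hD', Matrix.transpose_map, map_map_inv σ hσ]
  obtain ⟨g, hg, hg2⟩ := exists_similar_transpose (D * D.map σ)
  rw [← hZ] at hg2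
  have hcomp0 : (σ ∘ (0 : n → E)) = 0 := by
    funext i
    simp
  let P := {K : Submodule E (n → E) // ∀ v ∈ K, D *ᵥ (σ ∘ v) ∈ K}
  let κ : {X : Matrix n n E // X * D = D * X.map σ} → P := fun X =>
    ⟨LinearMap.ker (Matrix.toLin' X.1), by
      intro v hv
      rw [LinearMap.mem_ker, Matrix.toLin'_apply] at hv ⊢
      rw [Matrix.mulVec_mulVec, X.2, ← Matrix.mulVec_mulVec, map_mulVec_comp, hv, hcomp0,
        Matrix.mulVec_zero]⟩
  let κ' : {X : Matrix n n E // X * D = D' * X.map σ} → P := fun X =>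
    ⟨LinearMap.ker (Matrix.toLin' X.1), by
      intro v hv
      rw [LinearMap.mem_ker, Matrix.toLin'_apply] at hv ⊢
      rw [Matrix.mulVec_mulVec, X.2, ← Matrix.mulVec_mulVec, map_mulVec_comp, hv, hcomp0,
        Matrix.mulVec_zero]⟩
  have hP : Finite P := Subtype.finite
  have h1 := mob κ κ' ?_ ⟨⊥, ?_⟩
  · have h2 : Nat.card {a // κ a = ⟨⊥, by
        intro v hv
        rw [Submodule.mem_bot] at hv ⊢
        rw [hv, hcomp0, Matrix.mulVec_zero]⟩} ≠ 0 := by
      rw [Nat.card_ne_zero]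
      refine ⟨⟨⟨⟨1, ?_⟩, ?_⟩⟩, inferInstance⟩
      · rw [Matrix.one_mul, Matrix.map_one σ (map_zero σ) (map_one σ), Matrix.mul_one]
      · apply Subtype.ext
        change LinearMap.ker (Matrix.toLin' (1 : Matrix n n E)) = ⊥
        rw [Matrix.toLin'_one]
        exact LinearMap.ker_id
    rw [h1, Nat.card_ne_zero] at h2
    obtain ⟨⟨⟨X, hX⟩, hX2⟩⟩ := h2.1
    refine ⟨X, ?_, hX⟩
    have h3 : LinearMap.ker (Matrix.toLin' X) = ⊥ := congrArg Subtype.val hX2
    rw [isUnit_iff_ne_zero]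
    intro hdet
    obtain ⟨v, hv0, hv⟩ := Matrix.exists_mulVec_eq_zero_iff.2 hdet
    apply hv0
    have h4 : v ∈ LinearMap.ker (Matrix.toLin' X) := by
      rw [LinearMap.mem_ker, Matrix.toLin'_apply]
      exact hv
    rw [h3] at h4
    exact h4
  · rintro ⟨K, hK⟩
    have hker : ∀ X : Matrix n n E, K ≤ LinearMap.ker (Matrix.toLin' X) ↔ ∀ v ∈ K, X *ᵥ v = 0 := by
      intro X
      rfl
    have e1 : Nat.card {a // (⟨K, hK⟩ : P) ≤ κ a} =
        Nat.card {X : Matrix n n E // X * D = D * X.map σ ∧ ∀ v ∈ K, X *ᵥ v = 0} := by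
      apply Nat.card_congr
      exact
        { toFun := fun X => ⟨X.1.1, X.1.2, X.2⟩
          invFun := fun X => ⟨⟨X.1, X.2.1⟩, X.2.2⟩
          left_inv := fun X => rfl
          right_inv := fun X => rfl }
    have e2 : Nat.card {b // (⟨K, hK⟩ : P) ≤ κ' b} =
        Nat.card {X : Matrix n n E // X * D = D' * X.map σ ∧ ∀ v ∈ K, X *ᵥ v = 0} := by
      apply Nat.card_congr
      exact
        { toFun := fun X => ⟨X.1.1, X.1.2, X.2⟩
          invFun := fun X => ⟨⟨X.1, X.2.1⟩, X.2.2⟩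
          left_inv := fun X => rfl
          right_inv := fun X => rfl }
    rw [e1, e2]
    have c1 := cnt σ hσ θ hθ D D hD K hK
    have c2 := cnt σ hσ θ hθ D D' hD K hK
    have c3 : Nat.card {X : Matrix n n E // X * (D * D.map σ) = (D * D.map σ) * X ∧
        ∀ v ∈ K, X *ᵥ v = 0} = Nat.card {X : Matrix n n E //
          X * (D * D.map σ) = (D' * D'.map σ) * X ∧ ∀ v ∈ K, X *ᵥ v = 0} := by
      have hg3 : g * g⁻¹ = 1 := Matrix.mul_nonsing_inv g hg
      have hg4 : g⁻¹ * g = 1 := Matrix.nonsing_inv_mul g hg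
      have hg5 : g⁻¹ * (D' * D'.map σ) = (D * D.map σ) * g⁻¹ := by
        calc g⁻¹ * (D' * D'.map σ) = g⁻¹ * ((D' * D'.map σ) * g) * g⁻¹ := by
              rw [Matrix.mul_assoc, Matrix.mul_assoc (D' * D'.map σ), hg3, Matrix.mul_one]
          _ = (D * D.map σ) * g⁻¹ := by
              rw [← hg2, ← Matrix.mul_assoc, hg4, Matrix.one_mul]
      apply Nat.card_congr
      exact
        { toFun := fun X => ⟨g * X.1, by
            rw [Matrix.mul_assoc, X.2.1, ← Matrix.mul_assoc, hg2, Matrix.mul_assoc], fun v hv => by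
            rw [← Matrix.mulVec_mulVec, X.2.2 v hv, Matrix.mulVec_zero]⟩
          invFun := fun X => ⟨g⁻¹ * X.1, by
            rw [Matrix.mul_assoc, X.2.1, ← Matrix.mul_assoc, hg5, Matrix.mul_assoc], fun v hv => by
            rw [← Matrix.mulVec_mulVec, X.2.2 v hv, Matrix.mulVec_zero]⟩
          left_inv := fun X => Subtype.ext (by
            change g⁻¹ * (g * X.1) = X.1
            rw [← Matrix.mul_assoc, hg4, Matrix.one_mul])
          right_inv := fun X => Subtype.ext (by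
            change g * (g⁻¹ * X.1) = X.1
            rw [← Matrix.mul_assoc, hg3, Matrix.one_mul]) }
    rw [c1, c2] at c3
    exact Nat.pow_left_injective (n := 2) (by norm_num) c3
  · intro v hv
    rw [Submodule.mem_bot] at hv ⊢
    rw [hv, hcomp0, Matrix.mulVec_zero]

end Pool.Agent.Q2.TMO
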