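import Mathlib

namespace Pool.Agent.Q2.TMO

theorem mob_key {P γ : Type*} [PartialOrder P] [Finite P] [Finite γ] [Fintype P] [Fintype γ]
    [DecidableEq P] [DecidableLT P] [DecidableLE P] (k : γ → P) (p : P) :
    Nat.card {a // p ≤ k a} =
        Nat.card {a // k a = p} + ∑ q ∈ Finset.univ.filter (fun q => p < q), Nat.card {a // k a = q} := by
  have e1 : ∀ q : P, Nat.card {a // k a = q} = (Finset.univ.filter (fun a => k a = q)).card := by
    intro q
    rw [Nat.card_eq_fintype_card, Fintype.card_subtype]
  have e2 : Nat.card {a // p ≤ k a} = (Finset.univ.filter (fun a => p ≤ k a)).card := by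
    rw [Nat.card_eq_fintype_card, Fintype.card_subtype]
  rw [e2]
  have e3 : (Finset.univ.filter (fun a => p ≤ k a)).card =
      ∑ q ∈ Finset.univ.filter (fun q => p ≤ q), ((Finset.univ.filter (fun a => p ≤ k a)).filter
        (fun a => k a = q)).card := by
    apply Finset.card_eq_sum_card_fiberwise
    intro a ha
    simpa using ha
  rw [e3]
  have e4 : Finset.univ.filter (fun q => p ≤ q) =
      insert p (Finset.univ.filter (fun q => p < q)) := by
    ext q
    simp only [Finset.mem_filter, Finset.mem_univ, true_and, Finset.mem_insert]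
    constructor
    · intro hq
      rcases eq_or_lt_of_le hq with h1 | h1
      · exact Or.inl h1.symm
      · exact Or.inr h1
    · rintro (h1 | h1)
      · exact h1 ▸ le_refl _
      · exact h1.le
  rw [e4, Finset.sum_insert (by simp)]
  have e5 : ∀ q, p ≤ q → ((Finset.univ.filter (fun a => p ≤ k a)).filter
        (fun a => k a = q)).card = Nat.card {a // k a = q} := by
    intro q hq
    rw [e1, Finset.filter_filter]
    congr 1
    ext a
    simp only [Finset.mem_filter, Finset.mem_univ, true_and]
    constructor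
    · intro hh
      exact hh.2
    · intro hh
      exact ⟨hh ▸ hq, hh⟩
  rw [e5 p le_rfl]
  congr 1
  apply Finset.sum_congr rfl
  intro q hq
  exact e5 q (by simpa using (Finset.mem_filter.1 hq).2.le)

/-- Moebius inversion on a finite partial order, in counting form. -/
theorem mob {P α β : Type*} [PartialOrder P] [Finite P] [Finite α] [Finite β]
    (κ : α → P) (κ' : β → P)
    (h : ∀ p, Nat.card {a // p ≤ κ a} = Nat.card {b // p ≤ κ' b}) :
    ∀ p, Nat.card {a // κ a = p} = Nat.card {b // κ' b = p} := by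
  classical
  have := Fintype.ofFinite P
  have := Fintype.ofFinite α
  have := Fintype.ofFinite β
  have wf : WellFounded (fun a b : P => b < a) := wellFounded_gt
  intro p
  induction p using wf.induction with
  | _ p ih =>
    have h1 := mob_key κ p
    have h2 := mob_key κ' p
    have h3 : ∑ q ∈ Finset.univ.filter (fun q => p < q), Nat.card {a // κ a = q} =
        ∑ q ∈ Finset.univ.filter (fun q => p < q), Nat.card {a // κ' a = q} := by
      apply Finset.sum_congr rfl
      intro q hq
      exact ih q (by simpa using hq)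
    have h4 := h p
    omega

/-- A finite vector space with a semilinear involution is the square of its fixed part. -/
theorem card_sq {E W : Type*} [Field E] [AddCommGroup W] [Module E W] (σ : E →+* E)
    (hσ : ∀ x, σ (σ x) = x) (θ : E) (hθ : σ θ ≠ θ) (S : Submodule E W) (τ : W → W)
    (hadd : ∀ a b, τ (a + b) = τ a + τ b)
    (hsm : ∀ (e : E) w, τ (e • w) = σ e • τ w) (hS : ∀ w ∈ S, τ w ∈ S)
    (hτ : ∀ w ∈ S, τ (τ w) = w) :
    Nat.card S = Nat.card {w : W // w ∈ S ∧ τ w = w} ^ 2 := by
  have h0 : θ - σ θ ≠ 0 := fun h => hθ (sub_eq_zero.1 h).symm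
  have hzero : τ 0 = 0 := by
    have := hadd 0 0
    simpa using this
  have hneg : ∀ a, τ (-a) = - τ a := by
    intro a
    have := hadd a (-a)
    rw [add_neg_cancel, hzero] at this
    exact (neg_eq_of_add_eq_zero_right this.symm).symm
  have hsub : ∀ a b, τ (a - b) = τ a - τ b := by
    intro a b
    rw [sub_eq_add_neg, hadd, hneg, sub_eq_add_neg]
  rw [sq, ← Nat.card_prod]
  symm
  let f : {w : W // w ∈ S ∧ τ w = w} × {w : W // w ∈ S ∧ τ w = w} → S :=
    fun x => ⟨x.1.1 + θ • x.2.1, S.add_mem x.1.2.1 (S.smul_mem _ x.2.2.1)⟩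
  apply Nat.card_congr
  apply Equiv.ofBijective f
  constructor
  · rintro ⟨⟨a, ha⟩, ⟨b, hb⟩⟩ ⟨⟨a', ha'⟩, ⟨b', hb'⟩⟩ hab
    have h1 : a + θ • b = a' + θ • b' := congrArg Subtype.val hab
    have h2 := congrArg τ h1
    rw [hadd, hadd, hsm, hsm, ha.2, hb.2, ha'.2, hb'.2] at h2
    have h3 : (θ - σ θ) • (b - b') = 0 := by
      have : (θ - σ θ) • (b - b') = (a + θ • b) - (a + σ θ • b) - ((a' + θ • b') - (a' + σ θ • b')) := by
        module
      rw [this, h1, h2]
      simp
    have h4 : b = b' := by
      rcases smul_eq_zero.1 h3 with h5 | h5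
      · exact absurd h5 h0
      · exact sub_eq_zero.1 h5
    have h5 : a = a' := by
      rw [h4] at h1
      exact add_right_cancel h1
    subst h4 h5
    rfl
  · rintro ⟨w, hw⟩
    set b : W := (θ - σ θ)⁻¹ • (w - τ w) with hb
    have hbS : b ∈ S := S.smul_mem _ (S.sub_mem hw (hS w hw))
    have hb1 : τ b = b := by
      rw [hb, hsm, hsub, hτ w hw]
      have : σ ((θ - σ θ)⁻¹) = - (θ - σ θ)⁻¹ := by
        rw [map_inv₀, map_sub, hσ, ← inv_neg, neg_sub]
      rw [this]
      module
    have ha1 : τ (w - θ • b) = w - θ • b := by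
      rw [hsub, hsm, hb1]
      have : (θ - σ θ) • b = w - τ w := by
        rw [hb, smul_smul, mul_inv_cancel₀ h0, one_smul]
      have h6 : w - θ • b = w - σ θ • b - (θ - σ θ) • b := by module
      rw [h6, this]
      module
    refine ⟨(⟨w - θ • b, S.sub_mem hw (S.smul_mem _ hbS), ha1⟩, ⟨b, hbS, hb1⟩), ?_⟩
    apply Subtype.ext
    change w - θ • b + θ • b = w
    simp

end Pool.Agent.Q2.TMO
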