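import Pool.Agent.Q2.TMO.Ind

namespace Pool.Agent.Q2.TMO

open Matrix Module

variable {F E : Type*} [Field F] [Field E] [Algebra F E]

theorem exists_conj [Finite F] (h : finrank F E = 2) :
    ∃ σ : E →+* E, (∀ x, σ (σ x) = x) ∧ (∀ a : F, σ (algebraMap F E a) = algebraMap F E a) ∧
      ∃ θ : E, σ θ ≠ θ := by
  have := Fintype.ofFinite F
  have hfd : Module.Finite F E := Module.finite_of_finrank_eq_succ h
  have hEfin : Finite E := Module.finite_of_finite F
  have ho := FiniteField.orderOf_frobeniusAlgHom F E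
  rw [h] at ho
  refine ⟨(FiniteField.frobeniusAlgHom F E).toRingHom, ?_, ?_, ?_⟩
  · intro x
    have h1 : (FiniteField.frobeniusAlgHom F E) ^ 2 = 1 := by
      rw [← ho]
      exact pow_orderOf_eq_one _
    have h2 := congrArg (fun f : E →ₐ[F] E => f x) h1
    simpa [pow_two] using h2
  · intro a
    exact (FiniteField.frobeniusAlgHom F E).commutes a
  · by_contra hcon
    push Not at hcon
    have h1 : FiniteField.frobeniusAlgHom F E = 1 := by
      ext x
      exact hcon x
    rw [h1, orderOf_one] at ho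
    norm_num at ho

/-- the operator `v ↦ A v + B σ(v)` -/
def op (σ : E →+* E) (hσF : ∀ a : F, σ (algebraMap F E a) = algebraMap F E a) {n : Type*}
    [Fintype n] (A B : Matrix n n E) : (n → E) →ₗ[F] (n → E) where
  toFun v := A *ᵥ v + B *ᵥ (σ ∘ v)
  map_add' v w := by
    have : σ ∘ (v + w) = σ ∘ v + σ ∘ w := by
      funext i
      simp
    rw [this, Matrix.mulVec_add, Matrix.mulVec_add]
    abel
  map_smul' a v := by
    have h1 : σ ∘ (a • v) = a • (σ ∘ v) := by
      funext i
      simp [Algebra.smul_def, hσF]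
    rw [h1, Matrix.mulVec_smul, Matrix.mulVec_smul, smul_add]
    rfl

variable {σ : E →+* E} {hσF : ∀ a : F, σ (algebraMap F E a) = algebraMap F E a} {n : Type*}
    [Fintype n] [DecidableEq n]

omit [DecidableEq n] in
theorem op_apply (A B : Matrix n n E) (v : n → E) :
    op σ hσF A B v = A *ᵥ v + B *ᵥ (σ ∘ v) := rfl

theorem op_mul (hσ : ∀ x, σ (σ x) = x) (A B A' B' : Matrix n n E) :
    op σ hσF A B * op σ hσF A' B' =
      op σ hσF (A * A' + B * B'.map σ) (A * B' + B * A'.map σ) := by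
  apply LinearMap.ext
  intro v
  rw [Module.End.mul_apply, op_apply, op_apply, op_apply]
  have h1 : σ ∘ (A' *ᵥ v + B' *ᵥ (σ ∘ v)) = (A'.map σ) *ᵥ (σ ∘ v) + (B'.map σ) *ᵥ v := by
    have h2 : σ ∘ (σ ∘ v) = v := by
      funext i
      simp [hσ]
    have h3 : σ ∘ (A' *ᵥ v + B' *ᵥ (σ ∘ v)) = σ ∘ (A' *ᵥ v) + σ ∘ (B' *ᵥ (σ ∘ v)) := by
      funext i
      simp
    rw [h3, ← map_mulVec_comp, ← map_mulVec_comp, h2]
  rw [h1]
  simp only [Matrix.mulVec_add, Matrix.add_mulVec, Matrix.mulVec_mulVec]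
  abel

theorem op_one : op σ hσF (1 : Matrix n n E) 0 = 1 := by
  apply LinearMap.ext
  intro v
  rw [op_apply]
  simp

theorem op_inj (θ : E) (hθ : σ θ ≠ θ) (A B A' B' : Matrix n n E)
    (h : op σ hσF A B = op σ hσF A' B') : A = A' ∧ B = B' := by
  have h1 : ∀ v, A *ᵥ v + B *ᵥ (σ ∘ v) = A' *ᵥ v + B' *ᵥ (σ ∘ v) := by
    intro v
    have := congrArg (fun f => f v) h
    simpa [op_apply] using this
  have h2 : ∀ v, A *ᵥ v = A' *ᵥ v ∧ B *ᵥ (σ ∘ v) = B' *ᵥ (σ ∘ v) := by
    intro v
    have e1 := h1 v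
    have e2 := h1 (θ • v)
    have h3 : σ ∘ (θ • v) = σ θ • (σ ∘ v) := by
      funext i
      simp
    rw [h3] at e2
    simp only [Matrix.mulVec_smul] at e2
    have h4 : (θ - σ θ) • (A *ᵥ v - A' *ᵥ v) = 0 := by
      have : (θ - σ θ) • (A *ᵥ v - A' *ᵥ v) =
          ((θ • A *ᵥ v + σ θ • B *ᵥ (σ ∘ v)) - (θ • A' *ᵥ v + σ θ • B' *ᵥ (σ ∘ v))) -
          σ θ • ((A *ᵥ v + B *ᵥ (σ ∘ v)) - (A' *ᵥ v + B' *ᵥ (σ ∘ v))) := by
        module
      rw [this, e1, e2]
      simp
    have h5 : A *ᵥ v = A' *ᵥ v := by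
      rcases smul_eq_zero.1 h4 with h6 | h6
      · exact absurd (sub_eq_zero.1 h6).symm hθ
      · exact sub_eq_zero.1 h6
    refine ⟨h5, ?_⟩
    rw [h5] at e1
    exact add_left_cancel e1
  constructor
  · ext i j
    have := congrFun (h2 (Pi.single j 1)).1 i
    simpa using this
  · ext i j
    have h3 : σ ∘ (Pi.single j (1 : E) : n → E) = Pi.single j 1 := by
      funext i
      rcases eq_or_ne i j with h4 | h4
      · subst h4
        simp
      · simp [Pi.single_eq_of_ne h4]
    have := congrFun (h2 (Pi.single j 1)).2 i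
    rw [h3] at this
    simpa using this

theorem op_surj (hE : finrank F E = 2) (θ : E) (hθ : σ θ ≠ θ) (f : (n → E) →ₗ[F] (n → E)) :
    ∃ A B : Matrix n n E, op σ hσF A B = f := by
  have hfd : Module.Finite F E := Module.finite_of_finrank_eq_succ hE
  let Φ : (Matrix n n E × Matrix n n E) →ₗ[F] ((n → E) →ₗ[F] (n → E)) :=
    { toFun := fun X => op σ hσF X.1 X.2
      map_add' := by
        intro X Y
        apply LinearMap.ext
        intro v
        simp only [op_apply, LinearMap.add_apply, Prod.fst_add, Prod.snd_add, Matrix.add_mulVec]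
        abel
      map_smul' := by
        intro a X
        apply LinearMap.ext
        intro v
        simp only [op_apply, LinearMap.smul_apply, Prod.smul_fst, Prod.smul_snd,
          RingHom.id_apply, smul_add, Matrix.smul_mulVec] }
  have hinj : Function.Injective Φ := by
    rintro ⟨A, B⟩ ⟨A', B'⟩ h
    obtain ⟨h1, h2⟩ := op_inj (hσF := hσF) θ hθ A B A' B' h
    rw [h1, h2]
  have hdim : finrank F (Matrix n n E × Matrix n n E) = finrank F ((n → E) →ₗ[F] (n → E)) := by
    rw [Module.finrank_prod, Module.finrank_matrix, Module.finrank_linearMap,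
      Module.finrank_pi_fintype]
    simp only [hE, Finset.sum_const, Finset.card_univ, smul_eq_mul]
    ring
  have hf1 : Module.Finite F (Matrix n n E) := Module.Finite.trans E (Matrix n n E)
  obtain ⟨X, hX⟩ := (LinearMap.injective_iff_surjective_of_finrank_eq_finrank hdim).1 hinj f
  exact ⟨X.1, X.2, hX⟩

end Pool.Agent.Q2.TMO
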